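import Pool.Agent.R890.HSA.Main

set_option autoImplicit false

/-!
# Colon ideals and associated primes of homological shifts of powers
-/

namespace Pool.Agent.R890.HSA

open Finset MvPolynomial
open scoped Pointwise

variable {n : ℕ} {K : Type*} [Field K]

/-- A vector above the lower bounds of a base set dominates a base. -/
theorem exists_base_le {g : Finset (Fin n) → ℤ} (hg : Submod g) (hg0 : g ∅ = 0) :
    ∀ (N : ℕ) (u : Fin n → ℤ), (∑ k, u k - g univ).toNat ≤ N →
      (∀ A, g univ - g Aᶜ ≤ ∑ k ∈ A, u k) → ∃ t ∈ Bs g, ∀ k, t k ≤ u k := by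
  have main : ∀ u : Fin n → ℤ, (∀ A, g univ - g Aᶜ ≤ ∑ k ∈ A, u k) →
      (∀ e, ∃ A, e ∈ A ∧ ∑ k ∈ A, u k ≤ g univ - g Aᶜ) → u ∈ Bs g := by
    intro u hu ht
    have key : ∀ J : Finset (Fin n), ∃ T, J ⊆ T ∧ ∑ k ∈ T, u k ≤ g univ - g Tᶜ := by
      intro J
      induction J using Finset.induction_on with
      | empty => exact ⟨∅, subset_rfl, by simp⟩
      | insert j J _ ih =>
        obtain ⟨T, h1, h2⟩ := ih
        obtain ⟨A, h3, h4⟩ := ht j
        refine ⟨T ∪ A, ?_, ?_⟩
        · intro x hx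
          rcases Finset.mem_insert.1 hx with rfl | hx
          · exact Finset.mem_union_right _ h3
          · exact Finset.mem_union_left _ (h1 hx)
        · have h5 := hg Tᶜ Aᶜ
          rw [← Finset.compl_inter, ← Finset.compl_union] at h5
          have h6 := hu (T ∩ A)
          have h7 := Finset.sum_union_inter (s₁ := T) (s₂ := A) (f := u)
          omega
    obtain ⟨T, h1, h2⟩ := key univ
    have hT : T = univ := Finset.univ_subset_iff.1 h1
    subst hT
    have h3 := hu univ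
    rw [Finset.compl_univ, hg0] at h2 h3
    have h4 : ∑ k, u k = g univ := by omega
    refine ⟨fun A => ?_, h4⟩
    have h5 := hu Aᶜ
    rw [compl_compl] at h5
    have h6 := Finset.sum_add_sum_compl A u
    omega
  intro N
  induction N with
  | zero =>
    intro u hN hu
    refine ⟨u, main u hu fun e => ⟨univ, Finset.mem_univ e, ?_⟩, fun k => le_rfl⟩
    rw [Finset.compl_univ, hg0]
    omega
  | succ N ih =>
    intro u hN hu
    by_cases ht : ∀ e, ∃ A, e ∈ A ∧ ∑ k ∈ A, u k ≤ g univ - g Aᶜ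
    · exact ⟨u, main u hu ht, fun k => le_rfl⟩
    · push Not at ht
      obtain ⟨e, he⟩ := ht
      have hs : ∀ A : Finset (Fin n), ∑ k ∈ A, (u k - if k = e then 1 else 0) =
          ∑ k ∈ A, u k - if e ∈ A then 1 else 0 := by
        intro A
        rw [Finset.sum_sub_distrib, Finset.sum_ite_eq']
      obtain ⟨t, ht1, ht2⟩ := ih (fun k => u k - if k = e then 1 else 0) (by
        rw [hs, if_pos (Finset.mem_univ e)]
        have := he univ (Finset.mem_univ e)
        rw [Finset.compl_univ, hg0] at this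
        omega) (by
        intro A
        rw [hs]
        by_cases heA : e ∈ A
        · rw [if_pos heA]
          have := he A heA
          omega
        · rw [if_neg heA, sub_zero]; exact hu A)
      refine ⟨t, ht1, fun k => (ht2 k).trans ?_⟩
      split_ifs <;> omega

/-- A nonempty set of shifts is the base set of a submodular function. -/
theorem exists_g {h : Finset (Fin n) → ℤ} (hh : Submod h) (hh0 : h ∅ = 0) {i : ℕ} (hi : 0 < i)
    {t₀ : Fin n → ℤ} (ht₀ : Tg h i t₀) :
    ∃ g : Finset (Fin n) → ℤ, Submod g ∧ g ∅ = 0 ∧ ∀ x, Tg h i x ↔ x ∈ Bs g := by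
  have hnpos : (univ : Finset (Fin n)).Nonempty := by
    rcases Nat.eq_zero_or_pos n with h | h
    · subst h
      exfalso
      have := ht₀.1
      rw [show (univ : Finset (Fin 0)) = ∅ from rfl, hh0] at this
      simp at this
      omega
    · exact ⟨⟨0, h⟩, Finset.mem_univ _⟩
  let l : Finset (Fin n) → ℤ := fun A => -(h A + min ((A.card : ℤ) - 1) i)
  have hl : Inter l := by
    intro A B hAB
    have h1 := min_card_inter i A B hAB
    have h2 := hh A B
    simp only [l]
    omega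
  have hpart : ∀ x, Tg h i x → ∀ A s, Part l A s → s ≤ -∑ k ∈ A, x k := by
    intro x hx A s hs
    induction hs with
    | nil => simp
    | cons A C s _ hC hAC ih =>
      rw [Finset.sum_union hAC]
      have := hx.2 C hC
      simp only [l]
      omega
  obtain ⟨P, hP0, hP1, hP2, hP3⟩ := exists_closure hl (fun A => -∑ k ∈ A, t₀ k)
    (hpart t₀ ht₀) (by simp)
  have hPu : P univ = -(h univ + i) := by
    have h1 := hP2 univ hnpos
    have h2 := hpart t₀ ht₀ univ _ (hP3 univ)
    rw [ht₀.1] at h2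
    simp only [l] at h1
    omega
  refine ⟨fun A => -P A, fun A B => by have := hP1 A B; beta_reduce; omega, by simp [hP0],
    fun x => ⟨fun hx => ⟨fun A => ?_, ?_⟩, fun hx => ⟨?_, fun A hA => ?_⟩⟩⟩
  · have := hpart x hx A _ (hP3 A)
    beta_reduce
    omega
  · beta_reduce
    rw [hx.1, hPu]; ring
  · have := hx.2
    beta_reduce at this
    rw [this, hPu]; ring
  · have h1 := hx.1 A
    have h2 := hP2 A hA
    simp only [l] at h2
    beta_reduce at h1
    omega

section

variable {S : Set (Fin n →₀ ℕ)} {f : Finset (Fin n) → ℤ}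

theorem IsRank.colon (h : IsRank S f) {i k : ℕ} (hi : 0 < i) (hk : i ≤ k) {u : Fin n →₀ ℕ}
    (hu : ∀ b ∈ S, ∃ t ∈ Tk f i (k + 1), t ≤ u + b) : ∃ t ∈ Tk f i k, t ≤ u := by
  rw [h.Tk_succ hi hk] at hu
  obtain ⟨b₀, hb₀, _⟩ := h.att ∅
  obtain ⟨_, ⟨_, _, t₀, ht₀, rfl⟩, _⟩ := hu b₀ hb₀
  obtain ⟨g, hg, hg0, hgT⟩ := exists_g (submod_mul h.sub k) (by simp [h.zero]) hi
    (show Tg (fun A => (k : ℤ) * f A) i (ca t₀) from ht₀)
  obtain ⟨t, ht, htu⟩ := exists_base_le hg hg0 _ (ca u) le_rfl (by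
    intro A
    obtain ⟨b, hb, hbA⟩ := h.att Aᶜ
    obtain ⟨_, ⟨s, hs, t, ht, rfl⟩, hle⟩ := hu b hb
    have h1 := ((h.mem_iff b).2 hb).2
    have h2 := ((h.mem_iff s).2 hs)
    have h3 := (hgT _).1 (show Tg (fun A => (k : ℤ) * f A) i (ca t) from ht)
    have h4 := Finset.sum_add_sum_compl A (ca b)
    have h5 := Finset.sum_add_sum_compl A (ca s)
    have h6 := Finset.sum_add_sum_compl A (ca t)
    have h7 := h2.1 Aᶜ
    have h8 := h3.1 Aᶜ
    have h9 : ∑ k ∈ A, ca s k + ∑ k ∈ A, ca t k ≤ ∑ k ∈ A, ca u k + ∑ k ∈ A, ca b k := by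
      rw [← Finset.sum_add_distrib, ← Finset.sum_add_distrib]
      refine Finset.sum_le_sum fun q _ => ?_
      have := hle q
      simp only [Finsupp.coe_add, Pi.add_apply] at this
      simp only [ca]
      exact_mod_cast this
    have h10 : ∑ k ∈ Aᶜ, ca b k = f Aᶜ := hbA
    have h11 := h2.2
    have h12 := h3.2
    omega)
  obtain ⟨v, rfl⟩ := exists_ca (h.Tg_nonneg hi k ((hgT t).2 ht))
  refine ⟨v, (hgT _).2 ht, fun q => ?_⟩
  have := htu q
  simp only [ca] at this
  exact_mod_cast this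

theorem mem_mi {T : Set (Fin n →₀ ℕ)} {p : MvPolynomial (Fin n) K} :
    p ∈ mi K T ↔ ∀ u ∈ p.support, ∃ t ∈ T, t ≤ u := by
  rw [mi, MvPolynomial.mem_ideal_span_monomial_image]

/-- The colon property of the shifts. -/
theorem IsRank.mem_of_mul (h : IsRank S f) {i k : ℕ} (hi : 0 < i) (hk : i ≤ k)
    {p : MvPolynomial (Fin n) K}
    (hp : ∀ b ∈ S, p * monomial b 1 ∈ HS i ((mi K S) ^ (k + 1))) :
    p ∈ HS i ((mi K S) ^ k) := by
  rw [h.HS_eq hi] at hp ⊢
  rw [mem_mi]
  intro u hu
  refine h.colon hi hk fun b hb => ?_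
  have h1 := mem_mi.1 (hp b hb) (u + b) (by
    rw [MvPolynomial.mem_support_iff, MvPolynomial.coeff_mul_monomial, mul_one]
    exact MvPolynomial.mem_support_iff.1 hu)
  exact h1

end

theorem gens_finite {I : Ideal (MvPolynomial (Fin n) K)} (h : Polymatroidal I) :
    (gens I).Finite := by
  obtain ⟨d, hd⟩ := h.degree_eq
  refine (Set.finite_Iic (Finsupp.equivFunOnFinite.symm (fun _ : Fin n => d))).subset ?_
  intro u hu
  rw [Set.mem_Iic]
  intro k
  rw [Finsupp.equivFunOnFinite_symm_apply_apply, ← hd u hu]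
  exact Finset.single_le_sum (f := fun k => u k) (fun _ _ => Nat.zero_le _) (Finset.mem_univ k)

/-- `HS_i(I^(k+1)) : I = HS_i(I^k)` for `k ≥ i`. -/
theorem HS_colon {I : Ideal (MvPolynomial (Fin n) K)} (hI : Polymatroidal I) (h0 : I ≠ ⊥)
    {i k : ℕ} (hi : 0 < i) (hk : i ≤ k) (p : MvPolynomial (Fin n) K) :
    (∀ q ∈ I, p * q ∈ HS i (I ^ (k + 1))) ↔ p ∈ HS i (I ^ k) := by
  constructor
  · intro hp
    have hne : (gens I).Nonempty := by
      rw [Set.nonempty_iff_ne_empty]
      intro hne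
      exact h0 (by rw [mi_gens hI, hne, mi_empty])
    obtain ⟨f, hf⟩ := exists_isRank hI hne
    rw [mi_gens hI] at hp ⊢
    refine hf.mem_of_mul hi hk fun b hb => hp _ ?_
    exact monomial_mem_mi.2 fun _ => ⟨b, hb, le_rfl⟩
  · intro hp q hq
    rw [HS_pow_succ hI hi hk, mul_comm p q]
    exact Ideal.mul_mem_mul hq hp

/-- Persistence of associated primes. -/
theorem ass_subset {I : Ideal (MvPolynomial (Fin n) K)} (hI : Polymatroidal I)
    {i k : ℕ} (hi : 0 < i) (hk : i ≤ k) :
    associatedPrimes (MvPolynomial (Fin n) K) (MvPolynomial (Fin n) K ⧸ HS i (I ^ k)) ⊆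
      associatedPrimes (MvPolynomial (Fin n) K)
        (MvPolynomial (Fin n) K ⧸ HS i (I ^ (k + 1))) := by
  classical
  by_cases h0 : I = ⊥
  · rw [h0, Ideal.bot_pow (by omega), Ideal.bot_pow (by omega)]
  intro P hP
  obtain ⟨hprime, x, hx⟩ := isAssociatedPrime_iff.1 hP
  obtain ⟨p, rfl⟩ := Ideal.Quotient.mk_surjective x
  have hmem : ∀ r, r ∈ P ↔ ∀ q ∈ I, r * p * q ∈ HS i (I ^ (k + 1)) := by
    intro r
    rw [HS_colon hI h0 hi hk, hx, Submodule.mem_colon_singleton, Submodule.mem_bot]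
    rw [← Ideal.Quotient.eq_zero_iff_mem, map_mul]
    rfl
  let F : (Fin n →₀ ℕ) → Ideal (MvPolynomial (Fin n) K) :=
    fun b => (HS i (I ^ (k + 1))).colon {p * monomial b 1}
  have hF : ∀ b r, r ∈ F b ↔ r * (p * monomial b 1) ∈ HS i (I ^ (k + 1)) := by
    intro b r
    simp only [F]
    rw [Submodule.mem_colon_singleton]
    rfl
  have hle : (gens_finite hI).toFinset.inf F ≤ P := by
    intro r hr
    rw [hmem]
    have hle' : mi K (gens I) ≤ (HS i (I ^ (k + 1))).colon {r * p} := by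
      rw [mi, Ideal.span_le]
      rintro _ ⟨b, hb, rfl⟩
      have h1 := Submodule.mem_finsetInf.1 hr b ((gens_finite hI).mem_toFinset.2 hb)
      have h2 := (hF b r).1 h1
      show monomial b (1 : K) ∈ (HS i (I ^ (k + 1))).colon {r * p}
      rw [Submodule.mem_colon_singleton, smul_eq_mul, mul_comm, mul_assoc]
      exact h2
    intro q hq
    have h3 : q ∈ (HS i (I ^ (k + 1))).colon {r * p} := hle' (by rwa [← mi_gens hI])
    rw [Submodule.mem_colon_singleton, smul_eq_mul, mul_comm] at h3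
    exact h3
  obtain ⟨b, hb, hb'⟩ := (Ideal.IsPrime.inf_le' hprime).1 hle
  refine isAssociatedPrime_iff.2 ⟨hprime, Ideal.Quotient.mk _ (p * monomial b 1), ?_⟩
  refine le_antisymm ?_ ?_
  · intro r hr
    rw [Submodule.mem_colon_singleton, Submodule.mem_bot]
    have h1 := (hmem r).1 hr (monomial b 1) ((gens_finite hI).mem_toFinset.1 hb).1
    have h2 : Ideal.Quotient.mk (HS i (I ^ (k + 1))) (r * (p * monomial b 1)) = 0 := by
      rw [Ideal.Quotient.eq_zero_iff_mem, ← mul_assoc]; exact h1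
    rw [map_mul] at h2
    exact h2
  · intro r hr
    rw [Submodule.mem_colon_singleton, Submodule.mem_bot] at hr
    apply hb'
    rw [hF, ← Ideal.Quotient.eq_zero_iff_mem, map_mul]
    exact hr

end Pool.Agent.R890.HSA
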