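import Mathlib

set_option autoImplicit false

/-!
# Polymatroidal ideals, multigraded Tor from the Koszul complex, homological shift ideals
-/

namespace Pool.Agent.R890.HSA

open Finset MvPolynomial

variable {n : ℕ} {K : Type*} [Field K]

/-- The exponent vectors of the minimal monomial generators of `I`: the vectors `u` such that
`x^u` lies in `I` and no other `x^v` with `v ≤ u` does. -/
def gens (I : Ideal (MvPolynomial (Fin n) K)) : Set (Fin n →₀ ℕ) :=
  {u | monomial u (1 : K) ∈ I ∧ ∀ v, v ≤ u → monomial v (1 : K) ∈ I → v = u}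

/-- `I` is a polymatroidal ideal: a monomial ideal, whose minimal monomial generators all have the
same degree, and which satisfies the exchange condition: for `u, v` in `gens I` and `p` with
`v p < u p` there is `q` with `u q < v q` such that `x_q x^u / x_p` is a minimal generator, that is,
`w + e_p = u + e_q` for some `w` in `gens I`. -/
structure Polymatroidal (I : Ideal (MvPolynomial (Fin n) K)) : Prop where
  isMonomial : ∃ S : Set (Fin n →₀ ℕ), I = Ideal.span ((fun u => monomial u (1 : K)) '' S)
  degree_eq : ∃ d : ℕ, ∀ u ∈ gens I, ∑ k, u k = d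
  exchange : ∀ u ∈ gens I, ∀ v ∈ gens I, ∀ p, v p < u p → ∃ q, u q < v q ∧
    ∃ w ∈ gens I, w + Finsupp.single p 1 = u + Finsupp.single q 1

/-- The Koszul differential: for a family `c_T` of polynomials indexed by the subsets `T` of the set
of variables (`c_T` is the coefficient of the exterior monomial `e_T`), the coefficient of `e_T` in
the image of `∑ c_T e_T` under the differential sending `e_{t_1} ∧ ... ∧ e_{t_i}` to
`∑ (-1)^(j-1) x_{t_j} e_{t_1} ∧ ... (omit e_{t_j}) ... ∧ e_{t_i}`. -/
noncomputable def kosD (c : Finset (Fin n) → MvPolynomial (Fin n) K) (T : Finset (Fin n)) :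
    MvPolynomial (Fin n) K :=
  ∑ t ∈ univ \ T, (-1) ^ (T.filter (· < t)).card * X t * c (insert t T)

/-- `c` is an element of homological degree `i` and multidegree `a` of the Koszul complex
`K(x_1,...,x_n; J)`: the coefficients lie in `J`, vanish unless `T` has `i` elements, and `c_T` is
homogeneous of multidegree `a - e_T` (each exponent `u` occurring in `c_T` has `u + e_T = a`). -/
def IsKosChain (J : Ideal (MvPolynomial (Fin n) K)) (i : ℕ) (a : Fin n →₀ ℕ)
    (c : Finset (Fin n) → MvPolynomial (Fin n) K) : Prop :=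
  (∀ T, T.card ≠ i → c T = 0) ∧ (∀ T, c T ∈ J) ∧
    ∀ T, ∀ u ∈ (c T).support, u + ∑ t ∈ T, Finsupp.single t 1 = a

/-- `Tor_i(K, J)_a ≠ 0`: the Koszul complex `K(x_1,...,x_n; J)` has a cycle of homological degree
`i` and multidegree `a` that is not a boundary. -/
def TorNe (J : Ideal (MvPolynomial (Fin n) K)) (i : ℕ) (a : Fin n →₀ ℕ) : Prop :=
  ∃ c, IsKosChain J i a c ∧ (∀ T, kosD c T = 0) ∧
    ¬ ∃ g, IsKosChain J (i + 1) a g ∧ ∀ T, kosD g T = c T

/-- The `i`th homological shift ideal. -/
noncomputable def HS (i : ℕ) (J : Ideal (MvPolynomial (Fin n) K)) : Ideal (MvPolynomial (Fin n) K) :=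
  Ideal.span ((fun a => monomial a (1 : K)) '' {a | TorNe J i a})

end Pool.Agent.R890.HSA
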