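import Pool.Agent.R890.HSA.Mat

set_option autoImplicit false

/-!
# Exchange sets, spanning vectors and the matroids of squarefree steps
-/

namespace Pool.Agent.R890.HSA

open Finset

variable {n : ℕ}

/-- `x - e_i + e_j`. -/
def mv (x : Fin n → ℤ) (i j : Fin n) : Fin n → ℤ :=
  fun k => x k - (if k = i then 1 else 0) + (if k = j then 1 else 0)

/-- A set of integer vectors with constant coordinate sum `D` and the exchange property. -/
structure MC (B : Set (Fin n → ℤ)) (D : ℤ) : Prop where
  sum : ∀ b ∈ B, ∑ i, b i = D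
  exch : ∀ x ∈ B, ∀ y ∈ B, ∀ i, y i < x i → ∃ j, x j < y j ∧ mv x i j ∈ B

/-- The `l^1` distance. -/
def dst (x y : Fin n → ℤ) : ℕ := ∑ k, (x k - y k).natAbs

theorem dst_mv_lt {x y : Fin n → ℤ} {i j : Fin n} (hi : y i < x i) (hj : x j < y j) :
    dst (mv x i j) y < dst x y := by
  unfold dst
  refine Finset.sum_lt_sum (fun k _ => ?_) ⟨i, Finset.mem_univ i, ?_⟩
  · simp only [mv]
    split_ifs with h1 h2 h2
    · subst h1; subst h2; omega
    · subst h1; omega
    · subst h2; omega
    · omega
  · have hij : i ≠ j := by rintro rfl; omega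
    simp only [mv, if_neg hij, if_true]
    omega

theorem dst_comm (x y : Fin n → ℤ) : dst x y = dst y x := by
  unfold dst
  exact Finset.sum_congr rfl fun k _ => by omega

theorem MC.dual {B : Set (Fin n → ℤ)} {D : ℤ} (hB : MC B D) : ∀ (N : ℕ) (x y : Fin n → ℤ),
    dst x y ≤ N → x ∈ B → y ∈ B → ∀ i, x i < y i → ∃ j, y j < x j ∧ mv x j i ∈ B := by
  intro N
  induction N with
  | zero =>
    intro x y hd hx hy i hi
    exfalso
    have h1 : dst x y = 0 := by omega
    unfold dst at h1
    rw [Finset.sum_eq_zero_iff] at h1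
    have := h1 i (Finset.mem_univ i)
    omega
  | succ N ih =>
    intro x y hd hx hy i hi
    have hj : ∃ j, y j < x j := by
      by_contra hcon
      push Not at hcon
      have : ∑ k, x k < ∑ k, y k :=
        Finset.sum_lt_sum (fun k _ => hcon k) ⟨i, Finset.mem_univ i, hi⟩
      rw [hB.sum x hx, hB.sum y hy] at this
      exact lt_irrefl _ this
    obtain ⟨j, hj⟩ := hj
    obtain ⟨l, hl, hxl⟩ := hB.exch x hx y hy j hj
    by_cases hli : l = i
    · subst hli; exact ⟨j, hj, hxl⟩
    · have hij : i ≠ j := by rintro rfl; omega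
      have hlj : l ≠ j := by rintro rfl; omega
      have hd' : dst (mv x j l) y ≤ N := by
        have := dst_mv_lt hj hl
        omega
      obtain ⟨m, hm, hz⟩ := ih (mv x j l) y hd' hxl hy i
        (by simp only [mv, if_neg hij, if_neg (Ne.symm hli)]; omega)
      have hml : m ≠ l := by
        rintro rfl
        simp only [mv, if_neg hlj, if_true] at hm
        omega
      have hmx : y m < x m := by
        simp only [mv, if_neg hml] at hm
        split_ifs at hm <;> omega
      obtain ⟨s, hs, hs'⟩ := hB.exch _ hz x hx l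
        (by simp only [mv, if_neg hml.symm, if_neg hlj, if_neg hli, if_true]; omega)
      have hs2 : s = j ∨ s = m := by
        by_contra hcon
        push Not at hcon
        simp only [mv, if_neg hcon.1, if_neg hcon.2] at hs
        split_ifs at hs <;> omega
      rcases hs2 with rfl | rfl
      · refine ⟨m, hmx, ?_⟩
        have : mv (mv (mv x s l) m i) l s = mv x m i := by
          funext k; simp only [mv]; ring
        rwa [this] at hs'
      · refine ⟨j, hj, ?_⟩
        have : mv (mv (mv x j l) s i) l s = mv x j i := by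
          funext k; simp only [mv]; ring
        rwa [this] at hs'

/-- The dual exchange property. -/
theorem MC.dexch {B : Set (Fin n → ℤ)} {D : ℤ} (hB : MC B D) {x y : Fin n → ℤ}
    (hx : x ∈ B) (hy : y ∈ B) {i : Fin n} (hi : x i < y i) : ∃ j, y j < x j ∧ mv x j i ∈ B :=
  hB.dual _ x y le_rfl hx hy i hi

/-- Spanning vectors: those above some element of `B`. -/
def Spn (B : Set (Fin n → ℤ)) (c : Fin n → ℤ) : Prop := ∃ b ∈ B, ∀ k, b k ≤ c k

theorem MC.aug' {B : Set (Fin n → ℤ)} {D : ℤ} (hB : MC B D) {c c' : Fin n → ℤ}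
    (hc : ∑ k, c' k < ∑ k, c k) : ∀ (N : ℕ) (b b' : Fin n → ℤ), dst b b' ≤ N → b ∈ B → b' ∈ B →
      (∀ k, b k ≤ c k) → (∀ k, b' k ≤ c' k) →
      ∃ q, c' q < c q ∧ Spn B (fun k => c k - if k = q then 1 else 0) := by
  intro N
  induction N with
  | zero =>
    intro b b' hd hb hb' h1 h2
    have h3 : dst b b' = 0 := by omega
    unfold dst at h3
    rw [Finset.sum_eq_zero_iff] at h3
    obtain ⟨t, -, ht⟩ := Finset.exists_lt_of_sum_lt hc
    have h4 := h3 t (Finset.mem_univ t)
    refine ⟨t, ht, b, hb, fun k => ?_⟩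
    have := h1 k
    beta_reduce
    by_cases hk : k = t
    · subst hk
      have := h2 k
      rw [if_pos rfl]
      omega
    · rw [if_neg hk]; omega
  | succ N ih =>
    intro b b' hd hb hb' h1 h2
    have h5 : ∑ k, (c' k - b' k) < ∑ k, (c k - b k) := by
      rw [Finset.sum_sub_distrib, Finset.sum_sub_distrib, hB.sum b hb, hB.sum b' hb']
      omega
    obtain ⟨t, -, ht⟩ := Finset.exists_lt_of_sum_lt h5
    by_cases hct : c' t < c t
    · refine ⟨t, hct, b, hb, fun k => ?_⟩
      have := h1 k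
      beta_reduce
      by_cases hk : k = t
      · subst hk
        have := h2 k
        rw [if_pos rfl]
        omega
      · rw [if_neg hk]; omega
    · have h6 := h2 t
      have h7 : b t < b' t := by omega
      have h8 : b t < c t := by omega
      obtain ⟨s, hs, hs'⟩ := hB.dexch hb hb' h7
      refine ih (mv b s t) b' ?_ hs' hb' ?_ h2
      · have := dst_mv_lt (x := b) (y := b') hs h7
        omega
      · intro k
        have := h1 k
        simp only [mv]
        by_cases hk : k = t
        · subst hk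
          rw [if_pos rfl]
          split_ifs <;> omega
        · rw [if_neg hk]
          split_ifs <;> omega

/-- Spanning vectors of different size can be lowered towards each other. -/
theorem MC.aug {B : Set (Fin n → ℤ)} {D : ℤ} (hB : MC B D) {c c' : Fin n → ℤ}
    (h1 : Spn B c) (h2 : Spn B c') (hc : ∑ k, c' k < ∑ k, c k) :
    ∃ q, c' q < c q ∧ Spn B (fun k => c k - if k = q then 1 else 0) := by
  obtain ⟨b, hb, hbc⟩ := h1
  obtain ⟨b', hb', hbc'⟩ := h2
  exact hB.aug' hc _ b b' le_rfl hb hb' hbc hbc'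

/-- `a - e_F`. -/
def dn (a : Fin n → ℤ) (F : Finset (Fin n)) : Fin n → ℤ := fun k => a k - if k ∈ F then 1 else 0

theorem dn_sum (a : Fin n → ℤ) (F : Finset (Fin n)) : ∑ k, dn a F k = ∑ k, a k - F.card := by
  simp only [dn, Finset.sum_sub_distrib]
  congr 1
  rw [Finset.sum_ite_mem, Finset.univ_inter]
  simp

theorem dn_insert (a : Fin n → ℤ) {F : Finset (Fin n)} {q : Fin n} (hq : q ∉ F) :
    (fun k => dn a F k - if k = q then 1 else 0) = dn a (insert q F) := by
  funext k
  by_cases hk : k = q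
  · subst hk; simp [dn, hq]
  · simp [dn, hk]

/-- The faces of the upper Koszul complex at `a`. -/
def Fc (B : Set (Fin n → ℤ)) (a : Fin n → ℤ) (F : Finset (Fin n)) : Prop := Spn B (dn a F)

theorem MC.isMat {B : Set (Fin n → ℤ)} {D : ℤ} (hB : MC B D) (a : Fin n → ℤ) :
    IsMat univ (Fc B a) where
  sub F _ := Finset.subset_univ F
  down F G := by
    rintro ⟨b, hb, h⟩ hGF
    refine ⟨b, hb, fun k => (h k).trans ?_⟩
    simp only [dn]
    by_cases hk : k ∈ G
    · rw [if_pos hk, if_pos (hGF hk)]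
    · rw [if_neg hk]; split_ifs <;> omega
  aug F G hF hG hc := by
    obtain ⟨q, hq, hq'⟩ := hB.aug hF hG (by rw [dn_sum, dn_sum]; omega)
    have h1 : q ∉ F := by
      intro h; simp only [dn, if_pos h] at hq; split_ifs at hq <;> omega
    have h2 : q ∈ G := by
      by_contra h; simp only [dn, if_neg h, if_neg h1] at hq; omega
    refine ⟨q, h2, h1, ?_⟩
    rw [dn_insert a h1] at hq'
    exact hq'

theorem MC.card_le {B : Set (Fin n → ℤ)} {D : ℤ} (hB : MC B D) {a : Fin n → ℤ}
    {F : Finset (Fin n)} (hF : Fc B a F) : D + F.card ≤ ∑ k, a k := by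
  obtain ⟨b, hb, h⟩ := hF
  have := Finset.sum_le_sum (s := univ) (fun k _ => h k)
  rw [dn_sum, hB.sum b hb] at this
  omega

theorem MC.mem_of_card {B : Set (Fin n → ℤ)} {D : ℤ} (hB : MC B D) {a : Fin n → ℤ}
    {F : Finset (Fin n)} (hF : Fc B a F) (hc : D + F.card = ∑ k, a k) : dn a F ∈ B := by
  obtain ⟨b, hb, h⟩ := hF
  have h1 : ∑ k, b k = ∑ k, dn a F k := by rw [dn_sum, hB.sum b hb]; omega
  have h2 := (Finset.sum_eq_sum_iff_of_le (fun k (_ : k ∈ univ) => h k)).1 h1
  have : b = dn a F := funext fun k => h2 k (Finset.mem_univ k)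
  rwa [← this]

/-- If a largest face can be lowered further at one of its own elements `t`, then all largest faces
contain `t`. -/
theorem MC.coloop {B : Set (Fin n → ℤ)} {D : ℤ} (hB : MC B D) {a : Fin n → ℤ}
    {F : Finset (Fin n)} (hmax : ∀ G, Fc B a G → G.card ≤ F.card) {t : Fin n}
    (ht : Spn B (fun k => dn a F k - if k = t then 1 else 0)) {G : Finset (Fin n)}
    (hG : Fc B a G) (hc : G.card = F.card) : t ∈ G := by
  by_contra htG
  obtain ⟨q, hq, hq'⟩ := hB.aug hG ht (by
    rw [Finset.sum_sub_distrib, dn_sum, dn_sum, Finset.sum_ite_eq', if_pos (Finset.mem_univ t)]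
    omega)
  have h1 : q ∉ G := by
    intro h
    have hqt : q ≠ t := fun h' => htG (h' ▸ h)
    simp only [dn, if_pos h, if_neg hqt] at hq
    split_ifs at hq <;> omega
  rw [dn_insert a h1] at hq'
  have := hmax _ hq'
  rw [Finset.card_insert_of_notMem h1] at this
  omega

/-- Nonvanishing of the homology of the upper Koszul complex of `B` at `a`, faces of size `i`. -/
def NZ (K : Type*) [Field K] (B : Set (Fin n → ℤ)) (a : Fin n → ℤ) (i : ℕ) : Prop :=
  ∃ z : Finset (Fin n) → K, (∀ F, z F ≠ 0 → Fc B a F ∧ F.card = i) ∧ (∀ G, bd z G = 0) ∧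
    ¬ ∃ y : Finset (Fin n) → K, (∀ F, y F ≠ 0 → Fc B a F ∧ F.card = i + 1) ∧ ∀ G, bd y G = z G

theorem MC.nz_iff {K : Type*} [Field K] {B : Set (Fin n → ℤ)} {D : ℤ} (hB : MC B D)
    (a : Fin n → ℤ) (i : ℕ) :
    NZ K B a i ↔ ∑ k, a k = D + i ∧ (∃ F : Finset (Fin n), F.card = i ∧ dn a F ∈ B) ∧
      ∀ p, ∃ F : Finset (Fin n), F.card = i ∧ p ∉ F ∧ dn a F ∈ B := by
  constructor
  · rintro ⟨z, hz, hb, hy⟩
    have hz0 : ∃ F, z F ≠ 0 := by
      by_contra hcon
      push Not at hcon
      exact hy ⟨fun _ => 0, fun F hF => absurd rfl hF, fun G => by rw [bd_zero, hcon G]⟩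
    obtain ⟨F, hF⟩ := hz0
    obtain ⟨hF1, hF2⟩ := hz F hF
    have hmax : ∀ G, Fc B a G → G.card ≤ i := by
      intro G hG
      by_contra hcon
      obtain ⟨G', hG', hcG'⟩ := Finset.exists_subset_card_eq (s := G) (n := i + 1) (by omega)
      exact hy (exact_below univ _ (hB.isMat a) i ⟨G', (hB.isMat a).down _ _ hG hG', hcG'⟩ z hz hb)
    have hsum : ∑ k, a k = D + i := by
      by_contra hne
      have h1 := hB.card_le hF1
      rw [hF2] at h1
      obtain ⟨b, hb', hbF⟩ := hF1
      have h2 : ∑ k, b k < ∑ k, dn a F k := by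
        rw [dn_sum, hB.sum b hb', hF2]; omega
      obtain ⟨t, -, ht⟩ := Finset.exists_lt_of_sum_lt h2
      have h3 : Spn B (fun k => dn a F k - if k = t then 1 else 0) := by
        refine ⟨b, hb', fun k => ?_⟩
        have := hbF k
        beta_reduce
        by_cases hk : k = t
        · subst hk; rw [if_pos rfl]; omega
        · rw [if_neg hk]; omega
      have h4 := fun G hG hc => hB.coloop (F := F) (fun G hG => by rw [hF2]; exact hmax G hG) h3
        (G := G) hG hc
      exact hF (cycle_eq_zero t z (fun G hG => h4 G (hz G hG).1 (by rw [(hz G hG).2, hF2])) hb F)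
    refine ⟨hsum, ⟨F, hF2, hB.mem_of_card hF1 (by rw [hF2, hsum])⟩, fun p => ?_⟩
    by_contra hcon
    push Not at hcon
    refine hF (cycle_eq_zero p z (fun G hG => ?_) hb F)
    by_contra hpG
    exact hcon G (hz G hG).2 hpG (hB.mem_of_card (hz G hG).1 (by rw [(hz G hG).2, hsum]))
  · rintro ⟨hsum, ⟨F₀, hF₀, hF₀'⟩, hp⟩
    have hmem : ∀ F, dn a F ∈ B → Fc B a F := fun F hF => ⟨_, hF, fun k => le_rfl⟩
    have hmax : ∀ G, Fc B a G → G.card ≤ i := by
      intro G hG
      have := hB.card_le hG
      omega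
    obtain ⟨z, hz1, hz2, F, hF⟩ := exists_top (K := K) univ _ (hB.isMat a) i
      ⟨F₀, hmem _ hF₀', hF₀⟩ hmax (by
        intro s _
        obtain ⟨G, h1, h2, h3⟩ := hp s
        exact ⟨G, hmem _ h3, h1, h2⟩)
    refine ⟨z, hz1, hz2, ?_⟩
    rintro ⟨y, hy1, hy2⟩
    have hy0 : y = fun _ => 0 := by
      funext G
      by_contra hG
      obtain ⟨h1, h2⟩ := hy1 G hG
      have := hmax G h1
      omega
    rw [hy0] at hy2
    have := hy2 F
    rw [bd_zero] at this
    exact hF this.symm

end Pool.Agent.R890.HSA
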