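import Pool.Agent.R890.HSA.Shift
import Pool.Agent.R890.HSA.Defs

set_option autoImplicit false

/-!
# From Koszul strands of monomial ideals to scalar chains
-/

namespace Pool.Agent.R890.HSA

open Finset MvPolynomial

variable {n : ℕ} {K : Type*} [Field K]

/-- Exponent vectors as integer vectors. -/
def ca (u : Fin n →₀ ℕ) : Fin n → ℤ := fun k => (u k : ℤ)

theorem ca_inj {u v : Fin n →₀ ℕ} (h : ca u = ca v) : u = v := by
  ext k
  have := congrFun h k
  simp only [ca] at this
  exact_mod_cast this

/-- The exponent of the squarefree monomial of `T`. -/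
noncomputable def eT (T : Finset (Fin n)) : Fin n →₀ ℕ := ∑ t ∈ T, Finsupp.single t 1

theorem eT_apply (T : Finset (Fin n)) (k : Fin n) : eT T k = if k ∈ T then 1 else 0 := by
  simp only [eT, Finsupp.coe_finsetSum, Finset.sum_apply, Finsupp.single_apply]
  rw [Finset.sum_ite_eq']

theorem eT_insert {T : Finset (Fin n)} {t : Fin n} (h : t ∉ T) :
    eT (insert t T) = Finsupp.single t 1 + eT T := by
  rw [eT, Finset.sum_insert h, eT]

/-- The ideal generated by the monomials with exponent in `S`. -/
noncomputable def mi (K : Type*) [Field K] (S : Set (Fin n →₀ ℕ)) : Ideal (MvPolynomial (Fin n) K) :=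
  Ideal.span ((fun u => monomial u (1 : K)) '' S)

theorem monomial_mem_mi {S : Set (Fin n →₀ ℕ)} {u : Fin n →₀ ℕ} {c : K} :
    monomial u c ∈ mi K S ↔ c ≠ 0 → ∃ s ∈ S, s ≤ u := by
  classical
  rw [mi, MvPolynomial.mem_ideal_span_monomial_image]
  constructor
  · intro h hc
    exact h u (by rw [MvPolynomial.support_monomial, if_neg hc]; simp)
  · intro h v hv
    rw [MvPolynomial.support_monomial] at hv
    split_ifs at hv with hc
    · simp at hv
    · rw [Finset.mem_singleton] at hv
      rw [hv]; exact h hc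

/-- The strand element with scalars `z`. -/
noncomputable def mk (a : Fin n →₀ ℕ) (z : Finset (Fin n) → K) (T : Finset (Fin n)) :
    MvPolynomial (Fin n) K := monomial (a - eT T) (z T)

theorem kosD_mk {a : Fin n →₀ ℕ} {z : Finset (Fin n) → K} (hz : ∀ T, z T ≠ 0 → eT T ≤ a)
    (T : Finset (Fin n)) : kosD (mk a z) T = monomial (a - eT T) (bd z T) := by
  unfold kosD bd
  rw [map_sum]
  refine Finset.sum_congr rfl fun t ht => ?_
  have htT : t ∉ T := by simpa using ht
  simp only [mk]
  by_cases h0 : z (insert t T) = 0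
  · rw [h0]; simp
  · have h1 := hz _ h0
    have h2 : a - eT T = Finsupp.single t 1 + (a - eT (insert t T)) := by
      ext k
      have h3 := h1 k
      simp only [Finsupp.coe_tsub, Pi.sub_apply, Finsupp.coe_add, Pi.add_apply, eT_apply,
        Finsupp.single_apply, mem_insert] at h3 ⊢
      by_cases hk : k = t
      · subst hk; simp [htT] at h3 ⊢; omega
      · have hk' : t ≠ k := fun h => hk h.symm
        simp [hk, hk']
    have h4 : ((-1 : MvPolynomial (Fin n) K)) ^ (T.filter (· < t)).card =
        monomial 0 ((-1 : K) ^ (T.filter (· < t)).card) := by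
      rw [← MvPolynomial.C_apply, map_pow, map_neg, map_one]
    rw [h4, show (X t : MvPolynomial (Fin n) K) = monomial (Finsupp.single t 1) 1 from rfl,
      MvPolynomial.monomial_mul, MvPolynomial.monomial_mul, zero_add, mul_one, ← h2]

theorem isKosChain_iff {S : Set (Fin n →₀ ℕ)} {i : ℕ} {a : Fin n →₀ ℕ}
    {c : Finset (Fin n) → MvPolynomial (Fin n) K} :
    IsKosChain (mi K S) i a c ↔
      ∃ z : Finset (Fin n) → K, (∀ T, z T ≠ 0 → Fc (ca '' S) (ca a) T ∧ T.card = i) ∧
        c = mk a z := by
  classical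
  constructor
  · rintro ⟨h1, h2, h3⟩
    have h4 : ∀ T, ¬ eT T ≤ a → c T = 0 := by
      intro T hT
      by_contra h
      obtain ⟨u, hu⟩ := MvPolynomial.support_nonempty.2 h
      refine hT ?_
      have h5 : u + eT T = a := h3 T u hu
      intro k
      rw [← h5, Finsupp.coe_add, Pi.add_apply]
      exact Nat.le_add_left _ _
    have h5 : ∀ T, eT T ≤ a → c T = monomial (a - eT T) (coeff (a - eT T) (c T)) := by
      intro T hT
      ext u
      rw [MvPolynomial.coeff_monomial]
      split_ifs with h
      · rw [h]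
      · by_contra h6
        have h7 : u + eT T = a := h3 T u (MvPolynomial.mem_support_iff.2 h6)
        exact h (by rw [← h7, add_tsub_cancel_right])
    refine ⟨fun T => if eT T ≤ a then coeff (a - eT T) (c T) else 0, ?_, ?_⟩
    · intro T hT
      beta_reduce at hT
      split_ifs at hT with h
      · refine ⟨?_, ?_⟩
        · have h6 := h2 T
          rw [h5 T h, monomial_mem_mi] at h6
          obtain ⟨s, hs, hs'⟩ := h6 hT
          refine ⟨ca s, ⟨s, hs, rfl⟩, fun k => ?_⟩
          have h7 := hs' k
          have h8 := h k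
          simp only [Finsupp.coe_tsub, Pi.sub_apply, eT_apply] at h7 h8
          simp only [ca, dn]
          split_ifs at h7 h8 ⊢ <;> omega
        · by_contra h6
          rw [h1 T h6] at hT
          simp at hT
      · exact absurd rfl hT
    · funext T
      simp only [mk]
      split_ifs with h
      · exact h5 T h
      · rw [h4 T h]; simp
  · rintro ⟨z, hz, rfl⟩
    have hle : ∀ T, z T ≠ 0 → eT T ≤ a := by
      intro T hT k
      obtain ⟨⟨b, ⟨s, _, rfl⟩, hb⟩, _⟩ := hz T hT
      have := hb k
      simp only [ca, dn] at this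
      rw [eT_apply]
      split_ifs at this ⊢ <;> omega
    refine ⟨?_, ?_, ?_⟩
    · intro T hT
      have : z T = 0 := by
        by_contra h
        exact hT (hz T h).2
      simp [mk, this]
    · intro T
      simp only [mk]
      rw [monomial_mem_mi]
      intro h
      have h8 := hle T h
      obtain ⟨⟨b, ⟨s, hs, rfl⟩, hb⟩, _⟩ := hz T h
      refine ⟨s, hs, fun k => ?_⟩
      have h6 := hb k
      have h7 := h8 k
      simp only [ca, dn] at h6
      simp only [Finsupp.coe_tsub, Pi.sub_apply, eT_apply] at h7 ⊢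
      split_ifs at h6 h7 ⊢ <;> omega
    · intro T u hu
      simp only [mk] at hu
      rw [MvPolynomial.support_monomial] at hu
      split_ifs at hu with hc
      · simp at hu
      · rw [Finset.mem_singleton] at hu
        rw [hu]
        exact tsub_add_cancel_of_le (hle T hc)

theorem torNe_iff {S : Set (Fin n →₀ ℕ)} {i : ℕ} {a : Fin n →₀ ℕ} :
    TorNe (mi K S) i a ↔ NZ K (ca '' S) (ca a) i := by
  have hle : ∀ (j : ℕ) (z : Finset (Fin n) → K),
      (∀ T, z T ≠ 0 → Fc (ca '' S) (ca a) T ∧ T.card = j) → ∀ T, z T ≠ 0 → eT T ≤ a := by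
    intro j z hz T hT k
    obtain ⟨⟨b, ⟨s, _, rfl⟩, hb⟩, _⟩ := hz T hT
    have := hb k
    simp only [ca, dn] at this
    rw [eT_apply]
    split_ifs at this ⊢ <;> omega
  constructor
  · rintro ⟨c, hc, hd, hno⟩
    obtain ⟨z, hz, rfl⟩ := isKosChain_iff.1 hc
    refine ⟨z, hz, fun G => ?_, ?_⟩
    · have := hd G
      rwa [kosD_mk (hle i z hz), MvPolynomial.monomial_eq_zero] at this
    · rintro ⟨y, hy, hy'⟩
      refine hno ⟨mk a y, isKosChain_iff.2 ⟨y, hy, rfl⟩, fun T => ?_⟩
      rw [kosD_mk (hle (i + 1) y hy), hy' T]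
      rfl
  · rintro ⟨z, hz, hd, hno⟩
    refine ⟨mk a z, isKosChain_iff.2 ⟨z, hz, rfl⟩, fun T => ?_, ?_⟩
    · rw [kosD_mk (hle i z hz), hd T, MvPolynomial.monomial_zero]
    · rintro ⟨g, hg, hg'⟩
      obtain ⟨y, hy, rfl⟩ := isKosChain_iff.1 hg
      refine hno ⟨y, hy, fun G => ?_⟩
      have := hg' G
      rw [kosD_mk (hle (i + 1) y hy)] at this
      have h2 : bd y G = z G := by
        have h3 := congrArg (coeff (a - eT G)) this
        simpa [mk, MvPolynomial.coeff_monomial] using h3
      exact h2

end Pool.Agent.R890.HSA
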