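import Pool.Agent.R890.HSA.Kos

set_option autoImplicit false

/-!
# Powers of polymatroidal ideals and their homological shifts
-/

namespace Pool.Agent.R890.HSA

open Finset MvPolynomial
open scoped Pointwise

variable {n : ℕ} {K : Type*} [Field K]

theorem mi_gens {I : Ideal (MvPolynomial (Fin n) K)} (h : Polymatroidal I) :
    I = mi K (gens I) := by
  obtain ⟨S, hS⟩ := h.isMonomial
  refine le_antisymm ?_ ?_
  · rw [hS, Ideal.span_le]
    rintro _ ⟨s, hs, rfl⟩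
    have hsI : monomial s (1 : K) ∈ I := by
      rw [hS]; exact Ideal.subset_span ⟨s, hs, rfl⟩
    obtain ⟨v, ⟨hv1, hv2⟩, hv3⟩ := (wellFounded_lt (α := Fin n →₀ ℕ)).has_min
      {v | monomial v (1 : K) ∈ I ∧ v ≤ s} ⟨s, hsI, le_rfl⟩
    have hv : v ∈ gens I := by
      refine ⟨hv1, fun w hw hwI => ?_⟩
      by_contra hne
      exact hv3 w ⟨hwI, hw.trans hv2⟩ (lt_of_le_of_ne hw hne)
    show monomial s (1 : K) ∈ mi K (gens (Ideal.span _))
    rw [← hS]
    exact monomial_mem_mi.2 fun _ => ⟨v, hv, hv2⟩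
  · rw [mi, Ideal.span_le]
    rintro _ ⟨s, hs, rfl⟩
    exact hs.1

theorem mi_mul (S T : Set (Fin n →₀ ℕ)) : mi K S * mi K T = mi K (S + T) := by
  rw [mi, mi, mi, Ideal.span_mul_span']
  congr 1
  ext x
  constructor
  · rintro ⟨_, ⟨s, hs, rfl⟩, _, ⟨t, ht, rfl⟩, rfl⟩
    exact ⟨s + t, ⟨s, hs, t, ht, rfl⟩, by simp [MvPolynomial.monomial_mul]⟩
  · rintro ⟨_, ⟨s, hs, t, ht, rfl⟩, rfl⟩
    exact ⟨_, ⟨s, hs, rfl⟩, _, ⟨t, ht, rfl⟩, by simp [MvPolynomial.monomial_mul]⟩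

theorem mi_empty : mi K (∅ : Set (Fin n →₀ ℕ)) = ⊥ := by
  rw [mi, Set.image_empty, Ideal.span_empty]

theorem mc_gens {I : Ideal (MvPolynomial (Fin n) K)} {d : ℕ}
    (hd : ∀ u ∈ gens I, ∑ k, u k = d) (h : Polymatroidal I) : MC (ca '' gens I) d where
  sum := by
    rintro _ ⟨u, hu, rfl⟩
    rw [← hd u hu]
    simp [ca]
  exch := by
    rintro _ ⟨u, hu, rfl⟩ _ ⟨v, hv, rfl⟩ p hp
    obtain ⟨q, hq, w, hw, he⟩ := h.exchange u hu v hv p (by simpa [ca] using hp)
    refine ⟨q, by simpa [ca] using hq, w, hw, ?_⟩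
    funext k
    have := DFunLike.congr_fun he k
    simp only [Finsupp.coe_add, Pi.add_apply, Finsupp.single_apply] at this
    simp only [ca, mv]
    by_cases h1 : k = p
    · subst h1
      by_cases h2 : k = q
      · subst h2; simp at this ⊢; omega
      · simp [Ne.symm h2] at this; simp [h2]; omega
    · by_cases h2 : k = q
      · subst h2; simp [Ne.symm h1] at this; simp [h1]; omega
      · simp [Ne.symm h1, Ne.symm h2] at this; simp [h1, h2]; omega

theorem exists_ca {x : Fin n → ℤ} (hx : ∀ k, 0 ≤ x k) : ∃ u : Fin n →₀ ℕ, ca u = x := by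
  refine ⟨Finsupp.equivFunOnFinite.symm fun k => (x k).toNat, ?_⟩
  funext k
  simp only [ca, Finsupp.equivFunOnFinite_symm_apply_apply]
  exact Int.toNat_of_nonneg (hx k)

theorem submod_mul {f : Finset (Fin n) → ℤ} (hf : Submod f) (k : ℕ) :
    Submod (fun A => (k : ℤ) * f A) := by
  intro A B
  have := mul_le_mul_of_nonneg_left (hf A B) (Int.natCast_nonneg k)
  simpa [mul_add] using this

/-- Data attached to a nonzero polymatroidal ideal: the rank function. -/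
structure IsRank (S : Set (Fin n →₀ ℕ)) (f : Finset (Fin n) → ℤ) : Prop where
  sub : Submod f
  zero : f ∅ = 0
  eq : ca '' S = Bs f
  att : ∀ A, ∃ b ∈ S, ∑ k ∈ A, (b k : ℤ) = f A

theorem exists_isRank {I : Ideal (MvPolynomial (Fin n) K)} (h : Polymatroidal I)
    (hne : (gens I).Nonempty) : ∃ f, IsRank (gens I) f := by
  obtain ⟨d, hd⟩ := h.degree_eq
  obtain ⟨f, h1, h2, _, h4, h5⟩ := (mc_gens hd h).exists_rank (hne.image _) (by
    rintro _ ⟨u, _, rfl⟩ k
    simp [ca])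
  refine ⟨f, h1, h2, h4, fun A => ?_⟩
  obtain ⟨_, ⟨u, hu, rfl⟩, hb⟩ := h5 A
  exact ⟨u, hu, hb⟩

theorem Bs_zero (f : Finset (Fin n) → ℤ) (x : Fin n → ℤ) :
    x ∈ Bs (fun A => ((0 : ℕ) : ℤ) * f A) ↔ x = 0 := by
  constructor
  · rintro ⟨h1, h2⟩
    have h3 : ∀ k, x k ≤ 0 := by
      intro k
      have := h1 {k}
      simpa using this
    have h4 : ∑ k, x k = ∑ k : Fin n, (0 : ℤ) := by rw [h2]; simp
    have h5 := (Finset.sum_eq_sum_iff_of_le (fun k (_ : k ∈ univ) => h3 k)).1 h4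
    funext k
    exact h5 k (Finset.mem_univ k)
  · rintro rfl
    exact ⟨fun A => by simp, by simp⟩

theorem Bs_succ {f : Finset (Fin n) → ℤ} (hf : Submod f) (hf0 : f ∅ = 0) (k : ℕ) (x : Fin n → ℤ) :
    x ∈ Bs (fun A => ((k + 1 : ℕ) : ℤ) * f A) ↔
      ∃ y ∈ Bs (fun A => (k : ℤ) * f A), ∃ z ∈ Bs f, x = fun q => y q + z q := by
  rw [← Bs_add (submod_mul hf k) (by simp [hf0]) hf hf0]
  have : (fun A => ((k + 1 : ℕ) : ℤ) * f A) = fun A => (k : ℤ) * f A + f A := by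
    funext A; push_cast; ring
  rw [this]

section

variable {S : Set (Fin n →₀ ℕ)} {f : Finset (Fin n) → ℤ}

theorem IsRank.nonneg (h : IsRank S f) (k : ℕ) : ∀ x ∈ Bs (fun A => (k : ℤ) * f A),
    ∀ q, 0 ≤ x q := by
  induction k with
  | zero =>
    intro x hx q
    rw [Bs_zero] at hx
    simp [hx]
  | succ k ih =>
    intro x hx q
    obtain ⟨y, hy, z, hz, rfl⟩ := (Bs_succ h.sub h.zero k x).1 hx
    rw [← h.eq] at hz
    obtain ⟨u, _, rfl⟩ := hz
    have := ih y hy q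
    simp only [ca]
    positivity

/-- Exponents of the generators of the `k`th power. -/
def Pk (f : Finset (Fin n) → ℤ) (k : ℕ) : Set (Fin n →₀ ℕ) :=
  {u | ca u ∈ Bs (fun A => (k : ℤ) * f A)}

/-- Exponents of the generators of the `i`th shift of the `k`th power. -/
def Tk (f : Finset (Fin n) → ℤ) (i k : ℕ) : Set (Fin n →₀ ℕ) :=
  {u | Tg (fun A => (k : ℤ) * f A) i (ca u)}

theorem IsRank.image_Pk (h : IsRank S f) (k : ℕ) :
    ca '' Pk f k = Bs (fun A => (k : ℤ) * f A) := by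
  ext x
  constructor
  · rintro ⟨u, hu, rfl⟩; exact hu
  · intro hx
    obtain ⟨u, rfl⟩ := exists_ca (h.nonneg k x hx)
    exact ⟨u, hx, rfl⟩

theorem ca_add (u v : Fin n →₀ ℕ) : ca (u + v) = fun q => ca u q + ca v q := by
  funext q; simp [ca]

theorem IsRank.mem_iff (h : IsRank S f) (u : Fin n →₀ ℕ) : ca u ∈ Bs f ↔ u ∈ S := by
  rw [← h.eq]
  constructor
  · rintro ⟨v, hv, hvu⟩
    rwa [← ca_inj hvu]
  · exact fun hu => ⟨u, hu, rfl⟩

theorem IsRank.pow (h : IsRank S f) (k : ℕ) : (mi K S) ^ k = mi K (Pk f k) := by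
  induction k with
  | zero =>
    rw [pow_zero]
    have : Pk f 0 = {0} := by
      ext u
      simp only [Pk, Set.mem_ofPred_eq, Set.mem_singleton_iff]
      rw [Bs_zero]
      constructor
      · intro hu
        exact ca_inj (by rw [hu]; funext q; simp [ca])
      · rintro rfl
        funext q; simp [ca]
    rw [this, mi, Set.image_singleton, Ideal.one_eq_top, eq_comm, Ideal.eq_top_iff_one]
    exact Ideal.subset_span (by simp)
  | succ k ih =>
    rw [pow_succ, ih, mi_mul]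
    congr 1
    ext u
    constructor
    · rintro ⟨v, hv, w, hw, rfl⟩
      exact (Bs_succ h.sub h.zero k _).2 ⟨ca v, hv, ca w, (h.mem_iff w).2 hw, ca_add v w⟩
    · intro hu
      obtain ⟨y, hy, z, hz, hyz⟩ := (Bs_succ h.sub h.zero k _).1 hu
      obtain ⟨v, rfl⟩ := exists_ca (h.nonneg k y hy)
      rw [← h.eq] at hz
      obtain ⟨w, hw, rfl⟩ := hz
      exact ⟨v, hy, w, hw, ca_inj (by rw [hyz, ca_add])⟩

theorem IsRank.torNe (h : IsRank S f) {i : ℕ} (hi : 0 < i) (k : ℕ) (a : Fin n →₀ ℕ) :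
    TorNe ((mi K S) ^ k) i a ↔ a ∈ Tk f i k := by
  rw [h.pow, torNe_iff, h.image_Pk, nz_Bs K (submod_mul h.sub k) (by simp [h.zero]) _ hi]
  rfl

theorem IsRank.HS_eq (h : IsRank S f) {i : ℕ} (hi : 0 < i) (k : ℕ) :
    HS i ((mi K S) ^ k) = mi K (Tk f i k) := by
  rw [HS, mi]
  congr 2
  ext a
  exact h.torNe hi k a

theorem IsRank.Tg_nonneg (h : IsRank S f) {i : ℕ} (hi : 0 < i) (k : ℕ) {x : Fin n → ℤ}
    (hx : Tg (fun A => (k : ℤ) * f A) i x) (q : Fin n) : 0 ≤ x q := by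
  have hsub := submod_mul h.sub k
  have h0 : (fun A => (k : ℤ) * f A) ∅ = 0 := by simp [h.zero]
  have h1 := (nz_Bs ℚ hsub h0 x hi).2 hx
  obtain ⟨_, ⟨F, _, hF⟩, _⟩ := ((mc_Bs hsub h0).nz_iff x i).1 h1
  have h2 := h.nonneg k _ hF q
  simp only [dn] at h2
  split_ifs at h2 <;> omega

theorem IsRank.Tk_succ (h : IsRank S f) {i k : ℕ} (hi : 0 < i) (hk : i ≤ k) :
    Tk f i (k + 1) = S + Tk f i k := by
  have hcast : (fun A => ((k + 1 : ℕ) : ℤ) * f A) = fun A => ((k : ℤ) + 1) * f A := by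
    funext A; push_cast; ring
  ext a
  constructor
  · intro ha
    simp only [Tk, Set.mem_ofPred_eq, hcast] at ha
    obtain ⟨y, hy, hay⟩ := shift_split h.sub h.zero hi hk ha
    rw [← h.eq] at hy
    obtain ⟨u, hu, rfl⟩ := hy
    obtain ⟨v, hv⟩ := exists_ca (h.Tg_nonneg hi k hay)
    refine ⟨u, hu, v, ?_, ?_⟩
    · simp only [Tk, Set.mem_ofPred_eq, hv]; exact hay
    · apply ca_inj
      rw [ca_add, hv]
      funext q; ring
  · rintro ⟨u, hu, v, hv, rfl⟩
    simp only [Tk, Set.mem_ofPred_eq] at hv ⊢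
    rw [hcast, ca_add]
    exact shift_add hv ((h.mem_iff u).2 hu)

end

theorem HS_bot (i : ℕ) : HS i (⊥ : Ideal (MvPolynomial (Fin n) K)) = ⊥ := by
  have : {a | TorNe (⊥ : Ideal (MvPolynomial (Fin n) K)) i a} = ∅ := by
    rw [Set.eq_empty_iff_forall_notMem]
    rintro a ⟨c, hc, _, hno⟩
    refine hno ⟨fun _ => 0, ⟨fun _ _ => rfl, fun _ => Ideal.zero_mem _, fun T u hu => ?_⟩,
      fun T => ?_⟩
    · simp at hu
    · have := hc.2.1 T
      rw [Ideal.mem_bot] at this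
      rw [this]
      simp [kosD]
  rw [HS, this, Set.image_empty, Ideal.span_empty]

/-- The homological shift algebra of a polymatroidal ideal is generated in degrees at most `i`. -/
theorem HS_pow_succ {I : Ideal (MvPolynomial (Fin n) K)} (hI : Polymatroidal I) {i k : ℕ}
    (hi : 0 < i) (hk : i ≤ k) : HS i (I ^ (k + 1)) = I * HS i (I ^ k) := by
  rcases (gens I).eq_empty_or_nonempty with hne | hne
  · have h0 : I = ⊥ := by rw [mi_gens hI, hne, mi_empty]
    rw [h0, Ideal.bot_pow (by omega), Ideal.bot_mul, HS_bot]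
  · obtain ⟨f, hf⟩ := exists_isRank hI hne
    rw [mi_gens hI, hf.HS_eq hi, hf.HS_eq hi, mi_mul, hf.Tk_succ hi hk]

end Pool.Agent.R890.HSA
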