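import Mathlib

set_option autoImplicit false

/-!
# Homology of matroid independence complexes, in the form needed for Koszul strands
-/

namespace Pool.Agent.R890.HSA

open Finset

variable {n : ℕ} {K : Type*} [Field K]

/-- The simplicial boundary (Koszul differential on a multidegree strand). -/
def bd (z : Finset (Fin n) → K) (G : Finset (Fin n)) : K :=
  ∑ j ∈ univ \ G, (-1) ^ (G.filter (· < j)).card * z (insert j G)

/-- A matroid independence complex on the ground set `E` (possibly empty as a family). -/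
structure IsMat (E : Finset (Fin n)) (Δ : Finset (Fin n) → Prop) : Prop where
  sub : ∀ F, Δ F → F ⊆ E
  down : ∀ F G, Δ F → G ⊆ F → Δ G
  aug : ∀ F G, Δ F → Δ G → F.card < G.card → ∃ q ∈ G, q ∉ F ∧ Δ (insert q F)

theorem bd_add (y z : Finset (Fin n) → K) (G : Finset (Fin n)) :
    bd (fun F => y F + z F) G = bd y G + bd z G := by
  simp only [bd, mul_add, Finset.sum_add_distrib]

theorem bd_smul (c : K) (z : Finset (Fin n) → K) (G : Finset (Fin n)) :
    bd (fun F => c * z F) G = c * bd z G := by
  simp only [bd, Finset.mul_sum]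
  exact Finset.sum_congr rfl fun j _ => by ring

/-- The part of a chain on the faces avoiding `p`. -/
def c0 (p : Fin n) (z : Finset (Fin n) → K) (F : Finset (Fin n)) : K := if p ∈ F then 0 else z F

/-- The part of a chain on the link of `p`. -/
def c1 (p : Fin n) (z : Finset (Fin n) → K) (F : Finset (Fin n)) : K :=
  if p ∈ F then 0 else z (insert p F)

/-- The join with the vertex `p`. -/
def up (p : Fin n) (z : Finset (Fin n) → K) (F : Finset (Fin n)) : K :=
  if p ∈ F then z (F.erase p) else 0

theorem bd_split (p : Fin n) (z : Finset (Fin n) → K) {G : Finset (Fin n)} (hp : p ∉ G) :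
    bd z G = bd (c0 p z) G + (-1) ^ (G.filter (· < p)).card * z (insert p G) := by
  have h1 : (univ \ G : Finset (Fin n)) = insert p (univ \ insert p G) := by
    ext j; simp only [mem_sdiff, mem_univ, true_and, mem_insert]
    constructor
    · intro h
      by_cases hj : j = p
      · exact Or.inl hj
      · exact Or.inr (by rintro (h' | h') <;> contradiction)
    · rintro (h | h)
      · rw [h]; exact hp
      · exact fun h' => h (Or.inr h')
  have h2 : p ∉ (univ \ insert p G : Finset (Fin n)) := by simp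
  unfold bd
  rw [h1, Finset.sum_insert h2, Finset.sum_insert h2]
  have h3 : c0 p z (insert p G) = 0 := by simp [c0]
  rw [h3, mul_zero, zero_add, add_comm]
  congr 1
  refine Finset.sum_congr rfl fun j hj => ?_
  have hj' : j ≠ p := by
    rintro rfl; exact h2 hj
  have : c0 p z (insert j G) = z (insert j G) := by
    rw [c0, if_neg]; simp only [mem_insert, not_or]; exact ⟨hj'.symm, hp⟩
  rw [this]

theorem bd_link (p : Fin n) (z : Finset (Fin n) → K) (hz : ∀ F, z F ≠ 0 → ∀ j ∈ F, j ≤ p)
    {G : Finset (Fin n)} (hp : p ∉ G) : bd z (insert p G) = bd (c1 p z) G := by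
  have h1 : (univ \ G : Finset (Fin n)) = insert p (univ \ insert p G) := by
    ext j; simp only [mem_sdiff, mem_univ, true_and, mem_insert]
    constructor
    · intro h
      by_cases hj : j = p
      · exact Or.inl hj
      · exact Or.inr (by rintro (h' | h') <;> contradiction)
    · rintro (h | h)
      · rw [h]; exact hp
      · exact fun h' => h (Or.inr h')
  have h2 : p ∉ (univ \ insert p G : Finset (Fin n)) := by simp
  unfold bd
  rw [h1, Finset.sum_insert h2]
  have h3 : c1 p z (insert p G) = 0 := by simp [c1]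
  rw [h3, mul_zero, zero_add]
  refine Finset.sum_congr rfl fun j hj => ?_
  have hj' : j ≠ p := by
    rintro rfl; exact h2 hj
  have h4 : c1 p z (insert j G) = z (insert p (insert j G)) := by
    rw [c1, if_neg]; simp only [mem_insert, not_or]; exact ⟨hj'.symm, hp⟩
  rw [h4, Finset.insert_comm j p G]
  by_cases h5 : z (insert p (insert j G)) = 0
  · rw [h5, mul_zero, mul_zero]
  · have h6 := hz _ h5 j (by simp)
    have h7 : (insert p G).filter (· < j) = G.filter (· < j) := by
      rw [Finset.filter_insert, if_neg (not_lt.2 h6)]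
    rw [h7]

theorem bd_mem (p : Fin n) (z : Finset (Fin n) → K) (hz : ∀ F, p ∈ F → z F = 0)
    {G : Finset (Fin n)} (hp : p ∈ G) : bd z G = 0 := by
  unfold bd
  refine Finset.sum_eq_zero fun j _ => ?_
  rw [hz _ (Finset.mem_insert_of_mem hp), mul_zero]

theorem bd_zero (G : Finset (Fin n)) : bd (fun _ => (0 : K)) G = 0 := by
  simp [bd]

theorem bd_up0 (p : Fin n) (w : Finset (Fin n) → K) {G : Finset (Fin n)} (hp : p ∉ G) :
    bd (up p w) G = (-1) ^ (G.filter (· < p)).card * w G := by
  rw [bd_split p _ hp]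
  have h1 : c0 p (up p w) = fun _ => (0 : K) := by
    funext F; by_cases h : p ∈ F <;> simp [c0, up, h]
  rw [h1, bd_zero, zero_add]
  congr 1
  rw [up, if_pos (Finset.mem_insert_self p G), Finset.erase_insert hp]

theorem bd_up1 (p : Fin n) (w : Finset (Fin n) → K) (hw : ∀ F, w F ≠ 0 → ∀ j ∈ F, j < p)
    {G : Finset (Fin n)} (hp : p ∉ G) : bd (up p w) (insert p G) = bd w G := by
  rw [bd_link p _ _ hp]
  · congr 1
    funext F
    by_cases h : p ∈ F
    · rw [c1, if_pos h]
      by_contra h0
      exact lt_irrefl _ (hw F (Ne.symm h0) p h)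
    · rw [c1, if_neg h, up, if_pos (Finset.mem_insert_self p F), Finset.erase_insert h]
  · intro F hF j hj
    by_cases h : p ∈ F
    · rw [up, if_pos h] at hF
      by_cases hjp : j = p
      · exact hjp.le
      · exact (hw _ hF j (Finset.mem_erase.2 ⟨hjp, hj⟩)).le
    · rw [up, if_neg h] at hF; exact absurd rfl hF

/-- Grow a face inside a larger one. -/
theorem IsMat.grow {E : Finset (Fin n)} {Δ : Finset (Fin n) → Prop} (h : IsMat E Δ) :
    ∀ (m : ℕ) (F G : Finset (Fin n)), Δ F → Δ G → G.card = F.card + m →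
      ∃ F', Δ F' ∧ F ⊆ F' ∧ F' ⊆ F ∪ G ∧ F'.card = G.card := by
  intro m
  induction m with
  | zero => exact fun F G hF _ hc => ⟨F, hF, subset_rfl, subset_union_left, by omega⟩
  | succ m ih =>
    intro F G hF hG hc
    obtain ⟨q, hq, hqF, hq'⟩ := h.aug F G hF hG (by omega)
    obtain ⟨F', h1, h2, h3, h4⟩ := ih (insert q F) G hq' hG
      (by rw [Finset.card_insert_of_notMem hqF]; omega)
    refine ⟨F', h1, (Finset.subset_insert q F).trans h2, h3.trans ?_, h4⟩
    intro x hx
    simp only [mem_union, mem_insert] at hx ⊢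
    rcases hx with (hx | hx) | hx
    · exact Or.inr (hx ▸ hq)
    · exact Or.inl hx
    · exact Or.inr hx

theorem IsMat.del {E : Finset (Fin n)} {Δ : Finset (Fin n) → Prop} {p : Fin n}
    (h : IsMat (insert p E) Δ) : IsMat E (fun F => p ∉ F ∧ Δ F) where
  sub F hF x hx := by
    rcases Finset.mem_insert.1 (h.sub F hF.2 hx) with h' | h'
    · exact absurd (h' ▸ hx) hF.1
    · exact h'
  down F G hF hG := ⟨fun h' => hF.1 (hG h'), h.down F G hF.2 hG⟩
  aug F G hF hG hc := by
    obtain ⟨q, hq, hqF, hq'⟩ := h.aug F G hF.2 hG.2 hc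
    refine ⟨q, hq, hqF, ?_, hq'⟩
    simp only [mem_insert, not_or]
    exact ⟨fun h' => hG.1 (h' ▸ hq), hF.1⟩

theorem IsMat.link {E : Finset (Fin n)} {Δ : Finset (Fin n) → Prop} {p : Fin n}
    (h : IsMat (insert p E) Δ) : IsMat E (fun F => p ∉ F ∧ Δ (insert p F)) where
  sub F hF x hx := by
    rcases Finset.mem_insert.1 (h.sub _ hF.2 (Finset.mem_insert_of_mem hx)) with h' | h'
    · exact absurd (h' ▸ hx) hF.1
    · exact h'
  down F G hF hG := ⟨fun h' => hF.1 (hG h'), h.down _ _ hF.2 (Finset.insert_subset_insert p hG)⟩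
  aug F G hF hG hc := by
    obtain ⟨q, hq, hqF, hq'⟩ := h.aug _ _ hF.2 hG.2
      (by rw [Finset.card_insert_of_notMem hF.1, Finset.card_insert_of_notMem hG.1]; omega)
    have hqp : q ≠ p := fun h' => hqF (h' ▸ Finset.mem_insert_self p F)
    refine ⟨q, (Finset.mem_insert.1 hq).resolve_left hqp,
      fun h' => hqF (Finset.mem_insert_of_mem h'), ?_, ?_⟩
    · simp only [mem_insert, not_or]
      exact ⟨hqp.symm, hF.1⟩
    · rw [Finset.insert_comm]; exact hq'

theorem filter_lt_eq {p : Fin n} {G : Finset (Fin n)} (h : ∀ x ∈ G, x < p) :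
    (G.filter (· < p)).card = G.card := by
  rw [Finset.filter_true_of_mem h]

/-- The reduced homology of a matroid complex vanishes below the top dimension. -/
theorem exact_below (E : Finset (Fin n)) : ∀ (Δ : Finset (Fin n) → Prop), IsMat E Δ →
    ∀ i : ℕ, (∃ G, Δ G ∧ G.card = i + 1) → ∀ z : Finset (Fin n) → K,
      (∀ F, z F ≠ 0 → Δ F ∧ F.card = i) → (∀ G, bd z G = 0) →
      ∃ y : Finset (Fin n) → K, (∀ F, y F ≠ 0 → Δ F ∧ F.card = i + 1) ∧ ∀ G, bd y G = z G := by
  induction E using Finset.induction_on_max with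
  | empty =>
    rintro Δ hΔ i ⟨G, hG, hc⟩
    have := Finset.card_le_card (hΔ.sub G hG)
    simp at this
    rw [this] at hc
    simp at hc
  | insert p E hmax IH =>
    rintro Δ hΔ i ⟨G₀, hG₀, hc₀⟩ z hz hbz
    have hlt : ∀ F, Δ F → p ∉ F → ∀ x ∈ F, x < p := by
      intro F hF hpF x hx
      rcases Finset.mem_insert.1 (hΔ.sub F hF hx) with h | h
      · exact absurd (h ▸ hx) hpF
      · exact hmax x h
    have hle : ∀ F, Δ F → ∀ x ∈ F, x ≤ p := by
      intro F hF x hx
      rcases Finset.mem_insert.1 (hΔ.sub F hF hx) with h | h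
      · exact h.le
      · exact (hmax x h).le
    -- the relation between the two parts of `z`
    have hrel : ∀ G, p ∉ G → bd (c0 p z) G = (-1) ^ i * z (insert p G) := by
      intro G hpG
      have h1 := bd_split p z hpG
      rw [hbz G] at h1
      by_cases h2 : z (insert p G) = 0
      · rw [h2, mul_zero, add_zero] at h1
        rw [h2, mul_zero, ← h1]
      · obtain ⟨h3, h4⟩ := hz _ h2
        rw [Finset.card_insert_of_notMem hpG] at h4
        rw [filter_lt_eq (hlt G (hΔ.down _ _ h3 (Finset.subset_insert p G)) hpG)] at h1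
        have h5 : (-1 : K) ^ i = - (-1) ^ G.card := by rw [← h4, pow_succ]; ring
        rw [h5]
        linear_combination -h1
    by_cases hc : ∀ F, Δ F → p ∉ F → Δ (insert p F)
    · -- a cone
      refine ⟨fun F => (-1) ^ i * up p z F, ?_, ?_⟩
      · intro F hF
        have hF' : up p z F ≠ 0 := right_ne_zero_of_mul hF
        by_cases hp : p ∈ F
        · rw [up, if_pos hp] at hF'
          obtain ⟨h1, h2⟩ := hz _ hF'
          have h3 := hc _ h1 (Finset.notMem_erase p F)
          rw [Finset.insert_erase hp] at h3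
          refine ⟨h3, ?_⟩
          rw [Finset.card_erase_of_mem hp] at h2
          have := Finset.card_pos.2 ⟨p, hp⟩
          omega
        · rw [up, if_neg hp] at hF'; exact absurd rfl hF'
      · intro G
        rw [bd_smul]
        by_cases hp : p ∈ G
        · obtain ⟨G', hG', rfl⟩ : ∃ G', p ∉ G' ∧ G = insert p G' :=
            ⟨G.erase p, Finset.notMem_erase p G, (Finset.insert_erase hp).symm⟩
          have h1 : up p z = up p (c0 p z) := by
            funext F
            by_cases h : p ∈ F
            · rw [up, up, if_pos h, if_pos h, c0, if_neg (Finset.notMem_erase p F)]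
            · rw [up, up, if_neg h, if_neg h]
          rw [h1, bd_up1 p (c0 p z) _ hG', hrel G' hG', ← mul_assoc, ← mul_pow]
          · simp
          · intro F hF
            by_cases h : p ∈ F
            · rw [c0, if_pos h] at hF; exact absurd rfl hF
            · rw [c0, if_neg h] at hF
              exact hlt F (hz F hF).1 h
        · rw [bd_up0 p z hp, ← mul_assoc]
          by_cases h2 : z G = 0
          · rw [h2, mul_zero]
          · obtain ⟨h3, h4⟩ := hz _ h2
            rw [filter_lt_eq (hlt G h3 hp), h4, ← mul_pow]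
            simp
    · push Not at hc
      obtain ⟨F₀, hF₀, hpF₀, hF₀'⟩ := hc
      -- the deletion has a face with `i + 1` elements
      have hdel : ∃ G, (p ∉ G ∧ Δ G) ∧ G.card = i + 1 := by
        by_cases hcard : F₀.card ≤ i + 1
        · obtain ⟨F', h1, h2, h3, h4⟩ := hΔ.grow (G₀.card - F₀.card) F₀ G₀ hF₀ hG₀ (by omega)
          refine ⟨F', ⟨fun hp => hF₀' (hΔ.down _ _ h1 (Finset.insert_subset hp h2)), h1⟩,
            by omega⟩
        · obtain ⟨G, hG, hGc⟩ := Finset.exists_subset_card_eq (s := F₀) (n := i + 1) (by omega)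
          exact ⟨G, ⟨fun hp => hpF₀ (hG hp), hΔ.down _ _ hF₀ hG⟩, hGc⟩
      -- the link part is a boundary
      have hlink : ∃ w : Finset (Fin n) → K,
          (∀ F, w F ≠ 0 → (p ∉ F ∧ Δ (insert p F)) ∧ F.card = i) ∧
            ∀ G, bd w G = c1 p z G := by
        have hz1 : ∀ F, c1 p z F ≠ 0 → (p ∉ F ∧ Δ (insert p F)) ∧ F.card + 1 = i := by
          intro F hF
          by_cases h : p ∈ F
          · rw [c1, if_pos h] at hF; exact absurd rfl hF
          · rw [c1, if_neg h] at hF
            obtain ⟨h1, h2⟩ := hz _ hF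
            rw [Finset.card_insert_of_notMem h] at h2
            exact ⟨⟨h, h1⟩, h2⟩
        by_cases hex : ∃ j, i = j + 1 ∧ Δ {p}
        · obtain ⟨j, hj, hpΔ⟩ := hex
          obtain ⟨F', h1, h2, h3, h4⟩ := hΔ.grow i {p} G₀ hpΔ hG₀ (by simp; omega)
          have hpF' : p ∈ F' := h2 (Finset.mem_singleton_self p)
          obtain ⟨w, hw1, hw2⟩ := IH _ hΔ.link j
            ⟨F'.erase p, ⟨Finset.notMem_erase p F', by rw [Finset.insert_erase hpF']; exact h1⟩,
              by rw [Finset.card_erase_of_mem hpF']; omega⟩ (c1 p z)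
            (fun F hF => ⟨(hz1 F hF).1, by have := (hz1 F hF).2; omega⟩)
            (by
              intro G
              by_cases hp : p ∈ G
              · exact bd_mem p _ (fun F hF => by rw [c1, if_pos hF]) hp
              · rw [← bd_link p z (fun F hF => hle F (hz F hF).1) hp]
                exact hbz _)
          exact ⟨w, fun F hF => ⟨(hw1 F hF).1, by have := (hw1 F hF).2; omega⟩, hw2⟩
        · have hz2 : c1 p z = fun _ => (0 : K) := by
            funext F
            by_contra h
            obtain ⟨⟨h1, h2⟩, h3⟩ := hz1 F h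
            exact hex ⟨F.card, h3.symm, hΔ.down _ _ h2 (by simp)⟩
          exact ⟨fun _ => 0, fun F hF => absurd rfl hF, fun G => by rw [bd_zero, hz2]⟩
      obtain ⟨w, hw1, hw2⟩ := hlink
      have hwlt : ∀ F, w F ≠ 0 → ∀ j ∈ F, j < p := by
        intro F hF
        exact hlt F (hΔ.down _ _ (hw1 F hF).1.2 (Finset.subset_insert p F)) (hw1 F hF).1.1
      -- the corrected chain
      obtain ⟨w0, hw01, hw02⟩ := IH _ hΔ.del i hdel
        (fun F => c0 p z F + (-(-1) ^ i) * w F)
        (by
          intro F hF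
          by_cases h0 : c0 p z F = 0
          · rw [h0, zero_add] at hF
            obtain ⟨h1, h2⟩ := hw1 F (right_ne_zero_of_mul hF)
            exact ⟨⟨h1.1, hΔ.down _ _ h1.2 (Finset.subset_insert p F)⟩, h2⟩
          · by_cases h : p ∈ F
            · rw [c0, if_pos h] at h0; exact absurd rfl h0
            · rw [c0, if_neg h] at h0
              exact ⟨⟨h, (hz F h0).1⟩, (hz F h0).2⟩)
        (by
          intro G
          rw [bd_add, bd_smul, hw2 G]
          by_cases hp : p ∈ G
          · rw [bd_mem p _ (fun F hF => by rw [c0, if_pos hF]) hp, c1, if_pos hp]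
            ring
          · rw [hrel G hp, c1, if_neg hp]
            ring)
      refine ⟨fun F => up p w F + w0 F, ?_, ?_⟩
      · intro F hF
        beta_reduce at hF
        by_cases h0 : w0 F = 0
        · rw [h0, add_zero] at hF
          by_cases h : p ∈ F
          · rw [up, if_pos h] at hF
            obtain ⟨h1, h2⟩ := hw1 _ hF
            rw [Finset.insert_erase h] at h1
            rw [Finset.card_erase_of_mem h] at h2
            have := Finset.card_pos.2 ⟨p, h⟩
            exact ⟨h1.2, by omega⟩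
          · rw [up, if_neg h] at hF; exact absurd rfl hF
        · exact ⟨(hw01 F h0).1.2, (hw01 F h0).2⟩
      · intro G
        rw [bd_add, hw02 G]
        by_cases hp : p ∈ G
        · obtain ⟨G', hG', rfl⟩ : ∃ G', p ∉ G' ∧ G = insert p G' :=
            ⟨G.erase p, Finset.notMem_erase p G, (Finset.insert_erase hp).symm⟩
          rw [bd_up1 p w hwlt hG', hw2 G', c1, if_neg hG', c0, if_pos hp]
          have : w (insert p G') = 0 := by
            by_contra h
            exact (hw1 _ h).1.1 (Finset.mem_insert_self p G')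
          rw [this]; ring
        · rw [bd_up0 p w hp, c0, if_neg hp]
          by_cases h : w G = 0
          · rw [h]; ring
          · rw [filter_lt_eq (hwlt G h), (hw1 G h).2]; ring

/-- A coloopless matroid complex has a nonzero cycle on its bases. -/
theorem exists_top (E : Finset (Fin n)) : ∀ (Δ : Finset (Fin n) → Prop), IsMat E Δ →
    ∀ i : ℕ, (∃ G, Δ G ∧ G.card = i) → (∀ G, Δ G → G.card ≤ i) →
      (∀ s ∈ E, ∃ G, Δ G ∧ G.card = i ∧ s ∉ G) →
      ∃ z : Finset (Fin n) → K, (∀ F, z F ≠ 0 → Δ F ∧ F.card = i) ∧ (∀ G, bd z G = 0) ∧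
        ∃ F, z F ≠ 0 := by
  induction E using Finset.induction_on_max with
  | empty =>
    rintro Δ hΔ i ⟨G, hG, hc⟩ _ _
    have hG' : G = ∅ := Finset.subset_empty.1 (hΔ.sub G hG)
    subst hG'
    refine ⟨fun F => if F = ∅ then 1 else 0, ?_, ?_, ∅, by simp⟩
    · intro F hF
      by_cases h : F = ∅
      · rw [h]; exact ⟨hG, hc⟩
      · simp [h] at hF
    · intro G
      unfold bd
      refine Finset.sum_eq_zero fun j _ => ?_
      simp only [Finset.insert_ne_empty, if_false, mul_zero]
  | insert p E hmax IH =>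
    rintro Δ hΔ i ⟨G₀, hG₀, hc₀⟩ hrk hcl
    have hlt : ∀ F, Δ F → p ∉ F → ∀ x ∈ F, x < p := by
      intro F hF hpF x hx
      rcases Finset.mem_insert.1 (hΔ.sub F hF hx) with h | h
      · exact absurd (h ▸ hx) hpF
      · exact hmax x h
    by_cases hpΔ : Δ {p}
    · obtain ⟨j, rfl⟩ : ∃ j, i = j + 1 := by
        have := hrk _ hpΔ
        simp at this
        exact ⟨i - 1, by omega⟩
      -- the link
      have hext : ∀ F, Δ F → F.card = j + 1 → ∃ F', (p ∉ F' ∧ Δ (insert p F')) ∧ F'.card = j ∧
          F' ⊆ F := by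
        intro F hF hcF
        obtain ⟨F', h1, h2, h3, h4⟩ := hΔ.grow j {p} F hpΔ hF (by simp; omega)
        have hpF' : p ∈ F' := h2 (Finset.mem_singleton_self p)
        refine ⟨F'.erase p, ⟨Finset.notMem_erase p F', by rw [Finset.insert_erase hpF']; exact h1⟩,
          by rw [Finset.card_erase_of_mem hpF']; omega, ?_⟩
        intro x hx
        have hx' := h3 (Finset.mem_of_mem_erase hx)
        rcases Finset.mem_union.1 hx' with h | h
        · exact absurd (Finset.mem_singleton.1 h) (Finset.ne_of_mem_erase hx)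
        · exact h
      obtain ⟨z1, hz1, hbz1, F₁, hF₁⟩ := IH _ hΔ.link j
        (by
          obtain ⟨F', h1, h2, _⟩ := hext G₀ hG₀ hc₀
          exact ⟨F', h1, h2⟩)
        (by
          rintro G ⟨h1, h2⟩
          have := hrk _ h2
          rw [Finset.card_insert_of_notMem h1] at this
          omega)
        (by
          intro s hs
          obtain ⟨G, hG, hGc, hsG⟩ := hcl s (Finset.mem_insert_of_mem hs)
          obtain ⟨F', h1, h2, h3⟩ := hext G hG hGc
          exact ⟨F', h1, h2, fun h => hsG (h3 h)⟩)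
      obtain ⟨G₁, hG₁, hcG₁, hpG₁⟩ := hcl p (Finset.mem_insert_self p E)
      obtain ⟨y, hy1, hy2⟩ := exact_below (K := K) E _ hΔ.del j ⟨G₁, ⟨hpG₁, hG₁⟩, hcG₁⟩ z1
        (fun F hF => ⟨⟨(hz1 F hF).1.1, hΔ.down _ _ (hz1 F hF).1.2 (Finset.subset_insert p F)⟩,
          (hz1 F hF).2⟩) hbz1
      have hz1lt : ∀ F, z1 F ≠ 0 → ∀ j ∈ F, j < p := by
        intro F hF
        exact hlt F (hΔ.down _ _ (hz1 F hF).1.2 (Finset.subset_insert p F)) (hz1 F hF).1.1
      refine ⟨fun F => up p z1 F + (-(-1) ^ j) * y F, ?_, ?_, insert p F₁, ?_⟩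
      · intro F hF
        beta_reduce at hF
        by_cases h0 : y F = 0
        · rw [h0, mul_zero, add_zero] at hF
          by_cases h : p ∈ F
          · rw [up, if_pos h] at hF
            obtain ⟨h1, h2⟩ := hz1 _ hF
            rw [Finset.insert_erase h] at h1
            rw [Finset.card_erase_of_mem h] at h2
            have := Finset.card_pos.2 ⟨p, h⟩
            exact ⟨h1.2, by omega⟩
          · rw [up, if_neg h] at hF; exact absurd rfl hF
        · exact ⟨(hy1 F h0).1.2, (hy1 F h0).2⟩
      · intro G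
        rw [bd_add, bd_smul, hy2 G]
        by_cases hp : p ∈ G
        · obtain ⟨G', hG', rfl⟩ : ∃ G', p ∉ G' ∧ G = insert p G' :=
            ⟨G.erase p, Finset.notMem_erase p G, (Finset.insert_erase hp).symm⟩
          rw [bd_up1 p z1 hz1lt hG', hbz1 G']
          have : z1 (insert p G') = 0 := by
            by_contra h
            exact (hz1 _ h).1.1 (Finset.mem_insert_self p G')
          rw [this]; ring
        · rw [bd_up0 p z1 hp]
          by_cases h : z1 G = 0
          · rw [h]; ring
          · rw [filter_lt_eq (hz1lt G h), (hz1 G h).2]; ring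
      · have h1 : p ∉ F₁ := (hz1 F₁ hF₁).1.1
        have h2 : y (insert p F₁) = 0 := by
          by_contra h
          exact (hy1 _ h).1.1 (Finset.mem_insert_self p F₁)
        show up p z1 (insert p F₁) + _ * y (insert p F₁) ≠ 0
        rw [h2, mul_zero, add_zero, up, if_pos (Finset.mem_insert_self p F₁),
          Finset.erase_insert h1]
        exact hF₁
    · have hdel : ∀ F, Δ F → p ∉ F := fun F hF hp =>
        hpΔ (hΔ.down _ _ hF (Finset.singleton_subset_iff.2 hp))
      obtain ⟨z, hz1, hz2, hz3⟩ := IH _ hΔ.del i ⟨G₀, ⟨hdel _ hG₀, hG₀⟩, hc₀⟩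
        (fun G hG => hrk G hG.2)
        (by
          intro s hs
          obtain ⟨G, hG, hGc, hsG⟩ := hcl s (Finset.mem_insert_of_mem hs)
          exact ⟨G, ⟨hdel _ hG, hG⟩, hGc, hsG⟩)
      exact ⟨z, fun F hF => ⟨(hz1 F hF).1.2, (hz1 F hF).2⟩, hz2, hz3⟩

/-- If all faces of size `i` contain `p`, then there is no nonzero cycle on faces of size `i`. -/
theorem cycle_eq_zero (p : Fin n) (z : Finset (Fin n) → K) (hz : ∀ F, z F ≠ 0 → p ∈ F)
    (hb : ∀ G, bd z G = 0) (F : Finset (Fin n)) : z F = 0 := by
  by_contra hF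
  have hp := hz F hF
  have h1 := bd_split p z (Finset.notMem_erase p F)
  rw [hb, Finset.insert_erase hp] at h1
  have h2 : c0 p z = fun _ => (0 : K) := by
    funext G
    by_cases h : p ∈ G
    · rw [c0, if_pos h]
    · rw [c0, if_neg h]
      by_contra h0
      exact h (hz G h0)
  rw [h2, bd_zero, zero_add] at h1
  have h3 : (-1 : K) ^ ((F.erase p).filter (· < p)).card ≠ 0 := pow_ne_zero _ (by simp)
  exact hF ((mul_eq_zero.1 h1.symm).resolve_left h3)

end Pool.Agent.R890.HSA
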