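import Pool.Agent.R890.HSA.Ex

set_option autoImplicit false

/-!
# Rank functions of exchange sets, the discrete sandwich theorem, sums of base sets
-/

namespace Pool.Agent.R890.HSA

open Finset

variable {n : ℕ}

/-- Submodular set functions. -/
def Submod (f : Finset (Fin n) → ℤ) : Prop := ∀ A B, f (A ∪ B) + f (A ∩ B) ≤ f A + f B

/-- The integral base set of `f`. -/
def Bs (f : Finset (Fin n) → ℤ) : Set (Fin n → ℤ) :=
  {x | (∀ A, ∑ k ∈ A, x k ≤ f A) ∧ ∑ k, x k = f univ}

theorem sum_mv (x : Fin n → ℤ) (i j : Fin n) (A : Finset (Fin n)) :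
    ∑ k ∈ A, mv x i j k = ∑ k ∈ A, x k - (if i ∈ A then 1 else 0) + (if j ∈ A then 1 else 0) := by
  simp only [mv, Finset.sum_add_distrib, Finset.sum_sub_distrib, Finset.sum_ite_eq']

theorem mc_Bs {f : Finset (Fin n) → ℤ} (hf : Submod f) (h0 : f ∅ = 0) : MC (Bs f) (f univ) where
  sum b hb := hb.2
  exch x hx y hy i hi := by
    by_contra hcon
    push Not at hcon
    have key : ∀ J : Finset (Fin n), (∀ j ∈ J, x j < y j) →
        ∃ T, J ⊆ T ∧ i ∉ T ∧ f T ≤ ∑ k ∈ T, x k := by
      intro J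
      induction J using Finset.induction_on with
      | empty => exact fun _ => ⟨∅, subset_rfl, by simp, by simp [h0]⟩
      | insert j J hjJ ih =>
        intro hJ
        obtain ⟨T, h1, h2, h3⟩ := ih fun j' hj' => hJ j' (Finset.mem_insert_of_mem hj')
        have h4 := hcon j (hJ j (Finset.mem_insert_self j J))
        have h5 : ∃ A, f A < ∑ k ∈ A, mv x i j k := by
          by_contra h6
          push Not at h6
          refine h4 ⟨h6, ?_⟩
          rw [sum_mv, if_pos (Finset.mem_univ i), if_pos (Finset.mem_univ j), hx.2]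
          ring
        obtain ⟨A, hA⟩ := h5
        rw [sum_mv] at hA
        have hxA := hx.1 A
        have h7 : i ∉ A := by
          intro h; rw [if_pos h] at hA; split_ifs at hA <;> omega
        have h8 : j ∈ A := by
          by_contra h; rw [if_neg h, if_neg h7] at hA; omega
        refine ⟨T ∪ A, ?_, ?_, ?_⟩
        · intro k hk
          rcases Finset.mem_insert.1 hk with rfl | hk
          · exact Finset.mem_union_right _ h8
          · exact Finset.mem_union_left _ (h1 hk)
        · rw [Finset.mem_union]; tauto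
        · have h9 := hf T A
          have h10 := hx.1 (T ∩ A)
          have h11 := Finset.sum_union_inter (s₁ := T) (s₂ := A) (f := x)
          rw [if_neg h7, if_pos h8] at hA
          omega
    obtain ⟨T, h1, h2, h3⟩ := key (univ.filter fun j => x j < y j) (by simp)
    have h4 := hy.1 T
    have h5 : ∑ k ∈ Tᶜ, y k < ∑ k ∈ Tᶜ, x k := by
      refine Finset.sum_lt_sum (fun k hk => ?_) ⟨i, Finset.mem_compl.2 h2, hi⟩
      by_contra hlt
      push Not at hlt
      exact Finset.mem_compl.1 hk (h1 (by simpa using hlt))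
    have h6 := Finset.sum_add_sum_compl T x
    have h7 := Finset.sum_add_sum_compl T y
    have h8 := hx.2
    have h9 := hy.2
    omega

section rank

variable {B : Set (Fin n → ℤ)} {D : ℤ} {f : Finset (Fin n) → ℤ}

theorem MC.chain (hB : MC B D) (h2 : ∀ b ∈ B, ∀ A, ∑ k ∈ A, b k ≤ f A)
    {S T : Finset (Fin n)} (hST : S ⊆ T) : ∀ (N : ℕ) (b c : Fin n → ℤ), dst b c ≤ N → b ∈ B →
      c ∈ B → ∑ k ∈ T, b k = f T → ∑ k ∈ S, c k = f S →
      ∃ b' ∈ B, ∑ k ∈ T, b' k = f T ∧ ∑ k ∈ S, b' k = f S := by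
  intro N
  induction N with
  | zero =>
    intro b c hd hb hc h3 h4
    have : b = c := by
      funext k
      have h5 : dst b c = 0 := by omega
      unfold dst at h5
      rw [Finset.sum_eq_zero_iff] at h5
      have := h5 k (Finset.mem_univ k)
      omega
    subst this
    exact ⟨b, hb, h3, h4⟩
  | succ N ih =>
    intro b c hd hb hc h3 h4
    by_cases h5 : ∑ k ∈ S, b k = f S
    · exact ⟨b, hb, h3, h5⟩
    · have h6 : ∑ k ∈ S, b k < ∑ k ∈ S, c k := by
        rw [h4]; exact lt_of_le_of_ne (h2 b hb S) h5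
      obtain ⟨p, hpS, hp⟩ := Finset.exists_lt_of_sum_lt h6
      obtain ⟨q, hq, hq'⟩ := hB.dexch hb hc hp
      have h7 := h2 _ hq' T
      have h8 := sum_mv b q p T
      rw [if_pos (hST hpS)] at h8
      refine ih (mv b q p) c ?_ hq' hc ?_ h4
      · have := dst_mv_lt (x := b) (y := c) hq hp
        omega
      · split_ifs at h8 <;> omega

theorem MC.submod (hB : MC B D) (h1 : ∀ A, ∃ b ∈ B, ∑ k ∈ A, b k = f A)
    (h2 : ∀ b ∈ B, ∀ A, ∑ k ∈ A, b k ≤ f A) : Submod f := by
  intro S T
  obtain ⟨b, hb, hb'⟩ := h1 (S ∪ T)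
  obtain ⟨c, hc, hc'⟩ := h1 (S ∩ T)
  obtain ⟨e, he, he1, he2⟩ := hB.chain h2
    (Finset.inter_subset_left.trans Finset.subset_union_left : S ∩ T ⊆ S ∪ T) _ b c le_rfl
    hb hc hb' hc'
  rw [← he1, ← he2, Finset.sum_union_inter]
  exact add_le_add (h2 e he S) (h2 e he T)

theorem mv_self (b : Fin n → ℤ) (p : Fin n) : mv b p p = b := by
  funext k; simp only [mv]; ring

theorem MC.trans (hB : MC B D) {b : Fin n → ℤ} (hb : b ∈ B) {p q r : Fin n}
    (h1 : mv b r p ∈ B) (h2 : mv b q r ∈ B) : mv b q p ∈ B := by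
  by_cases hqr : q = r
  · subst hqr; exact h1
  by_cases hpr : p = r
  · subst hpr; exact h2
  by_cases hqp : q = p
  · subst hqp; rwa [mv_self]
  obtain ⟨j, hj, hj'⟩ := hB.exch _ h1 _ h2 q (by
    simp only [mv, if_neg hqr, if_neg hqp, if_true]; omega)
  have hjr : j = r := by
    by_contra h
    simp only [mv, if_neg h] at hj
    split_ifs at hj <;> omega
  subst hjr
  have : mv (mv b j p) q j = mv b q p := by
    funext k; simp only [mv]; ring
  rwa [this] at hj'

theorem MC.tight (hB : MC B D) {b : Fin n → ℤ} (hb : b ∈ B) (p : Fin n) (T : Finset (Fin n))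
    (hT : ∀ q, q ∈ T ↔ mv b q p ∈ B) : ∀ (N : ℕ) (c : Fin n → ℤ), dst c b ≤ N → c ∈ B →
      ∑ k ∈ T, c k ≤ ∑ k ∈ T, b k := by
  intro N
  induction N with
  | zero =>
    intro c hd hc
    refine Finset.sum_le_sum fun k _ => ?_
    have h5 : dst c b = 0 := by omega
    unfold dst at h5
    rw [Finset.sum_eq_zero_iff] at h5
    have := h5 k (Finset.mem_univ k)
    omega
  | succ N ih =>
    intro c hd hc
    by_contra hcon
    push Not at hcon
    obtain ⟨r, hrT, hr⟩ := Finset.exists_lt_of_sum_lt hcon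
    obtain ⟨q, hq, hq'⟩ := hB.dexch hb hc hr
    have hqT : q ∈ T := (hT q).2 (hB.trans hb ((hT r).1 hrT) hq')
    obtain ⟨s, hs, hs'⟩ := hB.dexch hc hb hq
    have h1 := ih (mv c s q) (by
      have := dst_mv_lt (x := c) (y := b) hs hq
      omega) hs'
    rw [sum_mv, if_pos hqT] at h1
    split_ifs at h1 <;> omega

theorem MC.mem_of_le (hB : MC B D) (h1 : ∀ A, ∃ b ∈ B, ∑ k ∈ A, b k = f A)
    (x : Fin n → ℤ) (hx : ∀ A, ∑ k ∈ A, x k ≤ f A)
    (hxD : ∑ k, x k = D) : ∀ (N : ℕ) (b : Fin n → ℤ), dst b x ≤ N → b ∈ B → x ∈ B := by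
  classical
  intro N
  induction N with
  | zero =>
    intro b hd hb
    have : b = x := by
      funext k
      have h5 : dst b x = 0 := by omega
      unfold dst at h5
      rw [Finset.sum_eq_zero_iff] at h5
      have := h5 k (Finset.mem_univ k)
      omega
    rwa [← this]
  | succ N ih =>
    intro b hd hb
    by_cases hbx : ∀ k, x k ≤ b k
    · have h3 := (Finset.sum_eq_sum_iff_of_le (fun k (_ : k ∈ univ) => hbx k)).1
        (by rw [hxD, hB.sum b hb])
      have : x = b := funext fun k => h3 k (Finset.mem_univ k)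
      rwa [this]
    · push Not at hbx
      obtain ⟨p, hp⟩ := hbx
      by_cases hq : ∃ q, mv b q p ∈ B ∧ x q < b q
      · obtain ⟨q, hq, hq'⟩ := hq
        refine ih (mv b q p) ?_ hq
        have := dst_mv_lt (x := b) (y := x) hq' hp
        omega
      · push Not at hq
        exfalso
        let T : Finset (Fin n) := univ.filter fun q => mv b q p ∈ B
        have hT : ∀ q, q ∈ T ↔ mv b q p ∈ B := fun q => by simp [T]
        obtain ⟨c, hc, hc'⟩ := h1 T
        have h4 := hB.tight hb p T hT _ c le_rfl hc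
        have h5 : ∑ k ∈ T, b k < ∑ k ∈ T, x k :=
          Finset.sum_lt_sum (fun k hk => hq k ((hT k).1 hk))
            ⟨p, (hT p).2 (by rwa [mv_self]), hp⟩
        have h6 := hx T
        omega

/-- Every nonempty bounded-below exchange set is the base set of a submodular function. -/
theorem MC.exists_rank (hB : MC B D) (hne : B.Nonempty) (hnn : ∀ b ∈ B, ∀ k, 0 ≤ b k) :
    ∃ f : Finset (Fin n) → ℤ, Submod f ∧ f ∅ = 0 ∧ f univ = D ∧ B = Bs f ∧
      ∀ A, ∃ b ∈ B, ∑ k ∈ A, b k = f A := by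
  have hmax : ∀ A : Finset (Fin n), ∃ m : ℤ, (∃ b ∈ B, ∑ k ∈ A, b k = m) ∧
      ∀ z, (∃ b ∈ B, ∑ k ∈ A, b k = z) → z ≤ m := by
    intro A
    refine Int.exists_greatest_of_bdd ⟨D, ?_⟩ ?_
    · rintro z ⟨b, hb, rfl⟩
      rw [← hB.sum b hb]
      exact Finset.sum_le_sum_of_subset_of_nonneg (Finset.subset_univ A) fun k _ _ => hnn b hb k
    · obtain ⟨b, hb⟩ := hne
      exact ⟨_, b, hb, rfl⟩
  choose f hf1 hf2 using hmax
  have hf2' : ∀ b ∈ B, ∀ A, ∑ k ∈ A, b k ≤ f A := fun b hb A => hf2 A _ ⟨b, hb, rfl⟩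
  have hu : f univ = D := by
    obtain ⟨b, hb, h⟩ := hf1 univ
    rw [← h, hB.sum b hb]
  refine ⟨f, hB.submod hf1 hf2', ?_, hu, ?_, hf1⟩
  · obtain ⟨b, _, h⟩ := hf1 ∅
    rw [← h]; simp
  · ext x
    constructor
    · exact fun hx => ⟨hf2' x hx, by rw [hB.sum x hx, hu]⟩
    · rintro ⟨hx1, hx2⟩
      obtain ⟨b, hb⟩ := hne
      exact hB.mem_of_le hf1 x hx1 (by rw [hx2, hu]) _ b le_rfl hb

end rank

/-- The discrete sandwich theorem. -/
theorem sandwich (E : Finset (Fin n)) : ∀ (p f : Finset (Fin n) → ℤ),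
    (∀ A B, A ⊆ E → B ⊆ E → p A + p B ≤ p (A ∪ B) + p (A ∩ B)) →
    (∀ A B, A ⊆ E → B ⊆ E → f (A ∪ B) + f (A ∩ B) ≤ f A + f B) →
    (∀ A, A ⊆ E → p A ≤ f A) → p ∅ = 0 → f ∅ = 0 →
    ∃ x : Fin n → ℤ, ∀ A, A ⊆ E → p A ≤ ∑ k ∈ A, x k ∧ ∑ k ∈ A, x k ≤ f A := by
  induction E using Finset.induction_on with
  | empty =>
    intro p f _ _ _ hp0 hf0
    refine ⟨fun _ => 0, fun A hA => ?_⟩
    rw [Finset.subset_empty.1 hA, hp0, hf0]
    simp
  | insert e E he ih =>
    intro p f hp hf hpf hp0 hf0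
    have hsub : ∀ {A}, A ⊆ E → A ⊆ insert e E := fun h => h.trans (Finset.subset_insert e E)
    have hins : ∀ {A}, A ⊆ E → insert e A ⊆ insert e E := fun h => Finset.insert_subset_insert e h
    have hnot : ∀ {A}, A ⊆ E → e ∉ A := fun h h' => he (h h')
    have hu : ∀ {A B : Finset (Fin n)}, A ∪ insert e B = insert e (A ∪ B) := by
      intro A B; exact Finset.union_insert e A B
    have hi : ∀ {A B : Finset (Fin n)}, A ⊆ E → A ∩ insert e B = A ∩ B := by
      intro A B hA
      exact Finset.inter_insert_of_notMem (hnot hA)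
    -- choice of the value at `e`
    obtain ⟨β, hβ1, hβ2⟩ : ∃ β : ℤ, (∀ A, A ⊆ E → p (insert e A) - f A ≤ β) ∧
        ∀ A, A ⊆ E → β ≤ f (insert e A) - p A := by
      obtain ⟨A₀, hA₀, hA₀'⟩ := Finset.exists_max_image E.powerset
        (fun A => p (insert e A) - f A) ⟨∅, Finset.empty_mem_powerset E⟩
      refine ⟨p (insert e A₀) - f A₀, fun A hA => hA₀' A (Finset.mem_powerset.2 hA), ?_⟩
      intro A hA
      have hA₀E := Finset.mem_powerset.1 hA₀
      have h1 := hp A (insert e A₀) (hsub hA) (hins hA₀E)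
      have h2 := hf A₀ (insert e A) (hsub hA₀E) (hins hA)
      rw [hu, hi hA] at h1
      rw [hu, hi hA₀E] at h2
      have h3 := hpf (insert e (A ∪ A₀)) (hins (Finset.union_subset hA hA₀E))
      have h4 := hpf (A ∩ A₀) (hsub (Finset.inter_subset_left.trans hA))
      rw [Finset.union_comm A₀ A, Finset.inter_comm A₀ A] at h2
      omega
    have g1 : ∀ A B, A ⊆ E → B ⊆ E → max (p A) (p (insert e A) - β) +
        max (p B) (p (insert e B) - β) ≤ max (p (A ∪ B)) (p (insert e (A ∪ B)) - β) +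
        max (p (A ∩ B)) (p (insert e (A ∩ B)) - β) := by
      intro A B hA hB
      have h1 := hp A B (hsub hA) (hsub hB)
      have h2 := hp A (insert e B) (hsub hA) (hins hB)
      have h3 := hp B (insert e A) (hsub hB) (hins hA)
      have h4 := hp (insert e A) (insert e B) (hins hA) (hins hB)
      rw [hu, hi hA] at h2
      rw [hu, hi hB, Finset.union_comm B A, Finset.inter_comm B A] at h3
      rw [← Finset.insert_union_distrib, ← Finset.insert_inter_distrib] at h4
      omega
    have g2 : ∀ A B, A ⊆ E → B ⊆ E → min (f (A ∪ B)) (f (insert e (A ∪ B)) - β) +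
        min (f (A ∩ B)) (f (insert e (A ∩ B)) - β) ≤ min (f A) (f (insert e A) - β) +
        min (f B) (f (insert e B) - β) := by
      intro A B hA hB
      have h1 := hf A B (hsub hA) (hsub hB)
      have h2 := hf A (insert e B) (hsub hA) (hins hB)
      have h3 := hf B (insert e A) (hsub hB) (hins hA)
      have h4 := hf (insert e A) (insert e B) (hins hA) (hins hB)
      rw [hu, hi hA] at h2
      rw [hu, hi hB, Finset.union_comm B A, Finset.inter_comm B A] at h3
      rw [← Finset.insert_union_distrib, ← Finset.insert_inter_distrib] at h4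
      omega
    have g3 : ∀ A, A ⊆ E → max (p A) (p (insert e A) - β) ≤ min (f A) (f (insert e A) - β) := by
      intro A hA
      have h1 := hpf A (hsub hA)
      have h2 := hpf (insert e A) (hins hA)
      have h3 := hβ1 A hA
      have h4 := hβ2 A hA
      omega
    have g4 : max (p ∅) (p (insert e ∅) - β) = 0 := by
      have h3 := hβ1 ∅ (Finset.empty_subset E)
      omega
    have g5 : min (f ∅) (f (insert e ∅) - β) = 0 := by
      have h4 := hβ2 ∅ (Finset.empty_subset E)
      omega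
    obtain ⟨x, hx⟩ := ih (fun A => max (p A) (p (insert e A) - β))
      (fun A => min (f A) (f (insert e A) - β)) g1 g2 g3 g4 g5
    refine ⟨fun k => if k = e then β else x k, ?_⟩
    have hsumE : ∀ A, A ⊆ E → ∑ k ∈ A, (if k = e then β else x k) = ∑ k ∈ A, x k := by
      intro A hA
      refine Finset.sum_congr rfl fun k hk => ?_
      rw [if_neg]
      rintro rfl
      exact hnot hA hk
    intro A hA
    by_cases heA : e ∈ A
    · obtain ⟨A', hA', rfl⟩ : ∃ A', e ∉ A' ∧ A = insert e A' :=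
        ⟨A.erase e, Finset.notMem_erase e A, (Finset.insert_erase heA).symm⟩
      have hA'E : A' ⊆ E := by
        intro k hk
        rcases Finset.mem_insert.1 (hA (Finset.mem_insert_of_mem hk)) with h | h
        · exact absurd (h ▸ hk) hA'
        · exact h
      rw [Finset.sum_insert hA', if_pos rfl, hsumE A' hA'E]
      obtain ⟨h1, h2⟩ := hx A' hA'E
      have h3 := (max_le_iff.1 h1).2
      have h4 := (le_min_iff.1 h2).2
      omega
    · have hAE : A ⊆ E := by
        intro k hk
        rcases Finset.mem_insert.1 (hA hk) with h | h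
        · exact absurd (h ▸ hk) heA
        · exact h
      rw [hsumE A hAE]
      obtain ⟨h1, h2⟩ := hx A hAE
      exact ⟨(max_le_iff.1 h1).1, (le_min_iff.1 h2).1⟩

/-- Splitting off a base of `f` which dominates a supermodular function. -/
theorem split {f h : Finset (Fin n) → ℤ} (hf : Submod f) (hf0 : f ∅ = 0)
    (hh : ∀ A B, h A + h B ≤ h (A ∪ B) + h (A ∩ B)) (hh0 : h ∅ = 0) (hle : ∀ A, h A ≤ f A)
    (hu : h univ = f univ) : ∃ y ∈ Bs f, ∀ A, h A ≤ ∑ k ∈ A, y k := by
  obtain ⟨y, hy⟩ := sandwich univ h f (fun A B _ _ => hh A B) (fun A B _ _ => hf A B)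
    (fun A _ => hle A) hh0 hf0
  refine ⟨y, ⟨fun A => (hy A (Finset.subset_univ A)).2, le_antisymm ?_ ?_⟩,
    fun A => (hy A (Finset.subset_univ A)).1⟩
  · exact (hy univ subset_rfl).2
  · rw [← hu]; exact (hy univ subset_rfl).1

/-- Base sets add up. -/
theorem Bs_add {f g : Finset (Fin n) → ℤ} (hf : Submod f) (hf0 : f ∅ = 0) (hg : Submod g)
    (hg0 : g ∅ = 0) (x : Fin n → ℤ) :
    x ∈ Bs (fun A => f A + g A) ↔ ∃ y ∈ Bs f, ∃ z ∈ Bs g, x = fun k => y k + z k := by
  constructor
  · rintro ⟨hx1, hx2⟩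
    obtain ⟨y, hy, hy'⟩ := split (h := fun A => ∑ k ∈ A, x k - g A) hf hf0 (by
        intro A B
        have h1 := hg A B
        have h2 := Finset.sum_union_inter (s₁ := A) (s₂ := B) (f := x)
        beta_reduce
        omega) (by simp [hg0]) (by
        intro A
        have := hx1 A
        beta_reduce at this ⊢
        omega) (by
        beta_reduce at hx2 ⊢
        omega)
    refine ⟨y, hy, fun k => x k - y k, ⟨fun A => ?_, ?_⟩, ?_⟩
    · rw [Finset.sum_sub_distrib]
      have := hy' A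
      beta_reduce at this
      omega
    · rw [Finset.sum_sub_distrib, hy.2, hx2]; ring
    · funext k; ring
  · rintro ⟨y, hy, z, hz, rfl⟩
    refine ⟨fun A => ?_, ?_⟩
    · rw [Finset.sum_add_distrib]; exact add_le_add (hy.1 A) (hz.1 A)
    · rw [Finset.sum_add_distrib, hy.2, hz.2]

end Pool.Agent.R890.HSA
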