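import Pool.Agent.R890.HSA.Rank

set_option autoImplicit false

/-!
# The polyhedral description of the shifts, and splitting off a base
-/

namespace Pool.Agent.R890.HSA

open Finset

variable {n : ℕ}

/-- The multidegrees of the `i`th shifts of the base set of `g`. -/
def Tg (g : Finset (Fin n) → ℤ) (i : ℕ) (a : Fin n → ℤ) : Prop :=
  ∑ k, a k = g univ + i ∧ ∀ A : Finset (Fin n), A.Nonempty →
    ∑ k ∈ A, a k ≤ g A + min ((A.card : ℤ) - 1) i

/-- The rank function of the uniform matroid of rank `i` on the complement of `p`. -/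
def ur (p : Fin n) (i : ℕ) (A : Finset (Fin n)) : ℤ := min ((A.erase p).card : ℤ) i

theorem ur_submod (p : Fin n) (i : ℕ) : Submod (ur p i) := by
  intro A B
  have h1 : ((A ∪ B).erase p).card + ((A ∩ B).erase p).card = (A.erase p).card + (B.erase p).card := by
    rw [← Finset.card_union_add_card_inter (A.erase p) (B.erase p)]
    congr 2
    · ext x; simp only [mem_erase, mem_union]; tauto
    · ext x; simp only [mem_erase, mem_inter]; tauto
  have h2 : ((A ∩ B).erase p).card ≤ (A.erase p).card :=
    Finset.card_le_card (Finset.erase_subset_erase p Finset.inter_subset_left)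
  have h3 : ((A ∩ B).erase p).card ≤ (B.erase p).card :=
    Finset.card_le_card (Finset.erase_subset_erase p Finset.inter_subset_right)
  simp only [ur]
  omega

theorem nz_Bs (K : Type*) [Field K] {g : Finset (Fin n) → ℤ} (hg : Submod g) (hg0 : g ∅ = 0)
    (a : Fin n → ℤ) {i : ℕ} (hi : 0 < i) : NZ K (Bs g) a i ↔ Tg g i a := by
  rw [(mc_Bs hg hg0).nz_iff]
  constructor
  · rintro ⟨hsum, -, hp⟩
    refine ⟨hsum, fun A hA => ?_⟩
    obtain ⟨p, hpA⟩ := hA
    obtain ⟨F, hF, hpF, hF'⟩ := hp p
    have h1 := hF'.1 A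
    have h2 : ∑ k ∈ A, dn a F k = ∑ k ∈ A, a k - ((A ∩ F).card : ℤ) := by
      simp only [dn, Finset.sum_sub_distrib, Finset.sum_ite_mem]
      simp
    rw [h2] at h1
    have h3 : (A ∩ F).card ≤ F.card := Finset.card_le_card Finset.inter_subset_right
    have h4 : (A ∩ F).card < A.card :=
      Finset.card_lt_card (Finset.ssubset_iff_subset_ne.2 ⟨Finset.inter_subset_left, fun h => by
        rw [← h] at hpA; exact hpF (Finset.mem_inter.1 hpA).2⟩)
    omega
  · rintro ⟨hsum, hA⟩
    have key : ∀ p, ∃ F : Finset (Fin n), F.card = i ∧ p ∉ F ∧ dn a F ∈ Bs g := by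
      intro p
      have hun := hA univ ⟨p, Finset.mem_univ p⟩
      have hue : ((univ : Finset (Fin n)).erase p).card + 1 = (univ : Finset (Fin n)).card :=
        Finset.card_erase_add_one (Finset.mem_univ p)
      have hur : ur p i univ = i := by
        simp only [ur]; omega
      have hmem : a ∈ Bs (fun A => g A + ur p i A) := by
        refine ⟨fun A => ?_, ?_⟩
        · rcases A.eq_empty_or_nonempty with h | h
          · subst h; simp [hg0, ur]
          · have h1 := hA A h
            refine h1.trans ?_
            by_cases hpA : p ∈ A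
            · have := Finset.card_erase_add_one hpA
              simp only [ur]; omega
            · simp only [ur, Finset.erase_eq_of_notMem hpA]; omega
        · beta_reduce
          rw [hsum, hur]
      obtain ⟨y, hy, z, hz, hyz⟩ := (Bs_add hg hg0 (ur_submod p i) (by simp [ur]) a).1 hmem
      have hz1 : ∀ q, z q ≤ 1 := by
        intro q
        have := hz.1 {q}
        rw [Finset.sum_singleton] at this
        have h2 : (({q} : Finset (Fin n)).erase p).card ≤ 1 := by
          refine (Finset.card_le_card (Finset.erase_subset _ _)).trans (by simp)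
        simp only [ur] at this
        omega
      have hz2 : ∀ q, 0 ≤ z q := by
        intro q
        have h1 := hz.1 (univ.erase q)
        have h2 := hz.2
        rw [hur, ← Finset.add_sum_erase _ _ (Finset.mem_univ q)] at h2
        simp only [ur] at h1
        omega
      have hzp : z p ≤ 0 := by
        have := hz.1 {p}
        rw [Finset.sum_singleton] at this
        simp only [ur] at this
        have h2 : (({p} : Finset (Fin n)).erase p).card = 0 := by simp
        omega
      have hzF : ∀ q, z q = if q ∈ univ.filter (fun q => z q = 1) then 1 else 0 := by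
        intro q
        have h1 := hz1 q
        have h2 := hz2 q
        by_cases h : z q = 1
        · simp [h]
        · simp [h]; omega
      refine ⟨univ.filter (fun q => z q = 1), ?_, ?_, ?_⟩
      · have h1 : ∑ q, z q = ((univ.filter (fun q => z q = 1)).card : ℤ) := by
          rw [Finset.sum_congr rfl fun q _ => hzF q, Finset.sum_ite_mem, Finset.univ_inter]
          simp
        rw [hz.2, hur] at h1
        exact_mod_cast h1.symm
      · simp only [mem_filter, mem_univ, true_and]; omega
      · have : dn a (univ.filter (fun q => z q = 1)) = y := by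
          funext q
          simp only [dn]
          rw [← hzF q, hyz]
          ring
        rw [this]; exact hy
    refine ⟨hsum, ?_, key⟩
    rcases Nat.eq_zero_or_pos n with h | h
    · subst h
      exfalso
      rw [show (univ : Finset (Fin 0)) = ∅ from rfl, hg0] at hsum
      simp at hsum
      omega
    · obtain ⟨F, h1, -, h3⟩ := key ⟨0, h⟩
      exact ⟨F, h1, h3⟩

/-- `Part ℓ A s`: `s` is the sum of `ℓ` over the blocks of a partition of `A`. -/
inductive Part (l : Finset (Fin n) → ℤ) : Finset (Fin n) → ℤ → Prop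
  | nil : Part l ∅ 0
  | cons (A C : Finset (Fin n)) (s : ℤ) : Part l A s → C.Nonempty → Disjoint A C →
      Part l (A ∪ C) (s + l C)

theorem Part.single {l : Finset (Fin n) → ℤ} {C : Finset (Fin n)} (hC : C.Nonempty) :
    Part l C (l C) := by
  have := Part.cons (l := l) ∅ C 0 Part.nil hC (Finset.disjoint_empty_left C)
  rwa [Finset.empty_union, zero_add] at this

theorem Part.append {l : Finset (Fin n) → ℤ} {A B : Finset (Fin n)} {s t : ℤ}
    (hA : Part l A s) (hB : Part l B t) : Disjoint A B → Part l (A ∪ B) (s + t) := by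
  induction hB with
  | nil => intro _; rwa [Finset.union_empty, add_zero]
  | cons B C t hB hC hBC ih =>
    intro hd
    rw [Finset.disjoint_union_right] at hd
    have := Part.cons (A ∪ B) C (s + t) (ih hd.1) hC (Finset.disjoint_union_left.2 ⟨hd.2, hBC⟩)
    rwa [Finset.union_assoc, add_assoc] at this

/-- Supermodularity on intersecting pairs. -/
def Inter (l : Finset (Fin n) → ℤ) : Prop :=
  ∀ A B, (A ∩ B).Nonempty → l A + l B ≤ l (A ∪ B) + l (A ∩ B)

theorem Part.step {l : Finset (Fin n) → ℤ} (hl : Inter l) {A : Finset (Fin n)} {s : ℤ}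
    (hA : Part l A s) : ∀ X : Finset (Fin n), X.Nonempty →
      ∃ s1 s2, Part l (A ∪ X) s1 ∧ Part l (A ∩ X) s2 ∧ s + l X ≤ s1 + s2 := by
  induction hA with
  | nil =>
    intro X hX
    refine ⟨l X, 0, ?_, ?_, by simp⟩
    · rw [Finset.empty_union]; exact Part.single hX
    · rw [Finset.empty_inter]; exact Part.nil
  | cons A C s hA hC hAC ih =>
    intro X hX
    by_cases hCX : (C ∩ X).Nonempty
    · obtain ⟨s1, s2, h1, h2, h3⟩ := ih (C ∪ X) (hC.mono Finset.subset_union_left)
      have h4 : A ∩ (C ∪ X) = A ∩ X := by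
        rw [Finset.inter_union_distrib_left, Finset.disjoint_iff_inter_eq_empty.1 hAC,
          Finset.empty_union]
      rw [h4] at h2
      have h5 : Disjoint (A ∩ X) (C ∩ X) :=
        Finset.disjoint_of_subset_left Finset.inter_subset_left
          (Finset.disjoint_of_subset_right Finset.inter_subset_left hAC)
      refine ⟨s1, s2 + l (C ∩ X), ?_, ?_, ?_⟩
      · rwa [Finset.union_assoc]
      · have := Part.cons (A ∩ X) (C ∩ X) s2 h2 hCX h5
        rwa [← Finset.union_inter_distrib_right] at this
      · have := hl C X hCX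
        omega
    · obtain ⟨s1, s2, h1, h2, h3⟩ := ih X hX
      rw [Finset.not_nonempty_iff_eq_empty] at hCX
      refine ⟨s1 + l C, s2, ?_, ?_, by omega⟩
      · have := Part.cons (A ∪ X) C s1 h1 hC (Finset.disjoint_union_left.2
          ⟨hAC, (Finset.disjoint_iff_inter_eq_empty.2 hCX).symm⟩)
        rwa [Finset.union_assoc, Finset.union_comm X C, ← Finset.union_assoc] at this
      · rwa [Finset.union_inter_distrib_right, hCX, Finset.union_empty]

theorem Part.super {l : Finset (Fin n) → ℤ} (hl : Inter l) {A B : Finset (Fin n)} {s t : ℤ}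
    (hA : Part l A s) (hB : Part l B t) :
      ∃ s1 s2, Part l (A ∪ B) s1 ∧ Part l (A ∩ B) s2 ∧ s + t ≤ s1 + s2 := by
  induction hB with
  | nil =>
    refine ⟨s, 0, ?_, ?_, le_rfl⟩
    · rwa [Finset.union_empty]
    · rw [Finset.inter_empty]; exact Part.nil
  | cons B C t hB hC hBC ih =>
    obtain ⟨s1, s2, h1, h2, h3⟩ := ih
    obtain ⟨s1', s2', h1', h2', h3'⟩ := h1.step hl C hC
    refine ⟨s1', s2 + s2', ?_, ?_, by omega⟩
    · rwa [← Finset.union_assoc]
    · have h4 : (A ∪ B) ∩ C = A ∩ C := by
        rw [Finset.union_inter_distrib_right, Finset.disjoint_iff_inter_eq_empty.1 hBC,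
          Finset.union_empty]
      rw [h4] at h2'
      have := h2.append h2' (Finset.disjoint_of_subset_left Finset.inter_subset_right
        (Finset.disjoint_of_subset_right Finset.inter_subset_right hBC))
      rwa [← Finset.inter_union_distrib_left] at this

/-- The supermodular closure of an intersecting supermodular function. -/
theorem exists_closure {l : Finset (Fin n) → ℤ} (hl : Inter l) (M : Finset (Fin n) → ℤ)
    (hM : ∀ A s, Part l A s → s ≤ M A) (hM0 : M ∅ = 0) :
    ∃ P : Finset (Fin n) → ℤ, P ∅ = 0 ∧ (∀ A B, P A + P B ≤ P (A ∪ B) + P (A ∩ B)) ∧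
      (∀ A, A.Nonempty → l A ≤ P A) ∧ ∀ A, Part l A (P A) := by
  have hex : ∀ A, ∃ m, Part l A m ∧ ∀ s, Part l A s → s ≤ m := by
    intro A
    refine Int.exists_greatest_of_bdd ⟨M A, hM A⟩ ?_
    rcases A.eq_empty_or_nonempty with h | h
    · subst h; exact ⟨0, Part.nil⟩
    · exact ⟨_, Part.single h⟩
  choose P hP1 hP2 using hex
  refine ⟨P, ?_, ?_, fun A hA => hP2 A _ (Part.single hA), hP1⟩
  · refine le_antisymm ?_ (hP2 ∅ 0 Part.nil)
    have := hM ∅ _ (hP1 ∅)
    rwa [hM0] at this
  · intro A B
    obtain ⟨s1, s2, h1, h2, h3⟩ := (hP1 A).super hl (hP1 B)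
    have := hP2 _ _ h1
    have := hP2 _ _ h2
    omega

theorem min_card_inter (i : ℕ) (A B : Finset (Fin n)) (h : (A ∩ B).Nonempty) :
    min (((A ∪ B).card : ℤ) - 1) i + min (((A ∩ B).card : ℤ) - 1) i ≤
      min ((A.card : ℤ) - 1) i + min ((B.card : ℤ) - 1) i := by
  have h1 := Finset.card_union_add_card_inter A B
  have h2 : (A ∩ B).card ≤ A.card := Finset.card_le_card Finset.inter_subset_left
  have h3 : (A ∩ B).card ≤ B.card := Finset.card_le_card Finset.inter_subset_right
  have h4 := h.card_pos
  omega

/-- The main splitting theorem: for `k ≥ i`, every `i`th shift of the `k+1`st power is the sum of a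
base and an `i`th shift of the `k`th power. -/
theorem shift_split {f : Finset (Fin n) → ℤ} (hf : Submod f) (hf0 : f ∅ = 0) {i k : ℕ}
    (hi : 0 < i) (hk : i ≤ k) {a : Fin n → ℤ} (ha : Tg (fun A => ((k : ℤ) + 1) * f A) i a) :
    ∃ y ∈ Bs f, Tg (fun A => (k : ℤ) * f A) i (fun q => a q - y q) := by
  obtain ⟨hsum, hA⟩ := ha
  beta_reduce at hsum hA
  have hnpos : (univ : Finset (Fin n)).Nonempty := by
    rcases Nat.eq_zero_or_pos n with h | h
    · subst h
      exfalso
      rw [show (univ : Finset (Fin 0)) = ∅ from rfl, hf0] at hsum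
      simp at hsum
      omega
    · exact ⟨⟨0, h⟩, Finset.mem_univ _⟩
  let l : Finset (Fin n) → ℤ := fun A => ∑ q ∈ A, a q - (k : ℤ) * f A - min ((A.card : ℤ) - 1) i
  have hl : Inter l := by
    intro A B hAB
    have h1 := min_card_inter i A B hAB
    have h2 := mul_le_mul_of_nonneg_left (hf A B) (Int.natCast_nonneg k)
    have h3 := Finset.sum_union_inter (s₁ := A) (s₂ := B) (f := a)
    simp only [l]
    rw [mul_add, mul_add] at h2
    omega
  have hbd : ∀ A, ∑ q ∈ A, a q ≤ ((k : ℤ) + 1) * f A + i := by
    intro A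
    rcases A.eq_empty_or_nonempty with h | h
    · subst h; rw [hf0]; simp
    · exact (hA A h).trans (by
        have := min_le_right ((A.card : ℤ) - 1) (i : ℤ)
        omega)
  have hpart : ∀ A s, Part l A s → ∃ φ, f A ≤ φ ∧ s ≤ φ ∧ s ≤ ∑ q ∈ A, a q - (k : ℤ) * φ := by
    intro A s hs
    induction hs with
    | nil => exact ⟨0, by rw [hf0], le_rfl, by simp⟩
    | cons A C s _ hC hAC ih =>
      obtain ⟨φ, h1, h2, h3⟩ := ih
      have h4 := hA C hC
      have h5 := hf A C
      rw [Finset.disjoint_iff_inter_eq_empty.1 hAC, hf0] at h5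
      have h6 : 0 ≤ min ((C.card : ℤ) - 1) i := by
        have := hC.card_pos
        omega
      refine ⟨φ + f C, by omega, ?_, ?_⟩
      · simp only [l]
        have : ((k : ℤ) + 1) * f C = k * f C + f C := by ring
        omega
      · rw [Finset.sum_union hAC]
        simp only [l]
        have : (k : ℤ) * (φ + f C) = k * φ + k * f C := by ring
        omega
  have hM : ∀ A s, Part l A s → s ≤ f A := by
    intro A s hs
    obtain ⟨φ, h1, h2, h3⟩ := hpart A s hs
    rcases h1.eq_or_lt with h | h
    · rwa [h]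
    · have h4 := hbd A
      have h5 : (k : ℤ) * (f A + 1) ≤ k * φ :=
        mul_le_mul_of_nonneg_left (by omega) (Int.natCast_nonneg k)
      have h6 : ((k : ℤ) + 1) * f A = k * f A + f A := by ring
      have h7 : (k : ℤ) * (f A + 1) = k * f A + k := by ring
      omega
  obtain ⟨P, hP0, hP1, hP2, hP3⟩ := exists_closure hl f hM hf0
  obtain ⟨y, hy, hy'⟩ := split hf hf0 hP1 hP0 (fun A => hM A _ (hP3 A)) (by
    refine le_antisymm (hM _ _ (hP3 univ)) ?_
    have h1 := hP2 univ hnpos
    simp only [l] at h1
    rw [hsum] at h1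
    have h6 : ((k : ℤ) + 1) * f univ = k * f univ + f univ := by ring
    omega)
  refine ⟨y, hy, ?_, fun A hA' => ?_⟩
  · rw [Finset.sum_sub_distrib, hsum, hy.2]; ring
  · rw [Finset.sum_sub_distrib]
    have h1 := hP2 A hA'
    have h2 := hy' A
    simp only [l] at h1
    beta_reduce
    omega

/-- Adding a base to a shift of the `k`th power gives a shift of the `k+1`st power. -/
theorem shift_add {f : Finset (Fin n) → ℤ} {i k : ℕ} {a y : Fin n → ℤ}
    (ha : Tg (fun A => (k : ℤ) * f A) i a) (hy : y ∈ Bs f) :
    Tg (fun A => ((k : ℤ) + 1) * f A) i (fun q => y q + a q) := by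
  refine ⟨?_, fun A hA => ?_⟩
  · rw [Finset.sum_add_distrib, ha.1, hy.2]; ring
  · rw [Finset.sum_add_distrib]
    have h1 := ha.2 A hA
    have h2 := hy.1 A
    have h6 : ((k : ℤ) + 1) * f A = k * f A + f A := by ring
    beta_reduce at h1 ⊢
    omega

end Pool.Agent.R890.HSA
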